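import Pool.Agent.helper58.CRO.SpecA

/-!
# The C^1 flow of a compactly supported C^2 vector field (row cro:CFL)
-/

open scoped Manifold ContDiff Topology ENNReal
open MeasureTheory Set Filter

noncomputable section

namespace Pool.Agent.CRO

/-- **CFL**: the C^1 flow. -/
theorem CFL (h1 : FLX_stmt) (h2 : LIN_stmt) (h3 : DIF_stmt) (h4 : DCT_stmt) : CFL_stmt := by
  intro F _ _ _ f hf hsupp
  obtain ⟨Φ, hΦ⟩ := h1 F f (hf.of_le (by norm_num)) hsupp
  have hcont : ∀ x, Continuous fun t => fderiv ℝ f (Φ t x) := by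
    intro x
    have hc : Continuous (fderiv ℝ f) := hf.continuous_fderiv two_ne_zero
    exact hc.comp (hΦ.cont.comp (continuous_id.prodMk continuous_const))
  have hY : ∀ x, ∃ Y : ℝ → F →L[ℝ] F, Y 0 = ContinuousLinearMap.id ℝ F ∧
      ∀ t, HasDerivAt Y ((fderiv ℝ f (Φ t x)).comp (Y t)) t := fun x => h2 F _ (hcont x)
  choose Y hY0 hYd using hY
  have hD : ∀ t x, HasFDerivAt (Φ t) (Y x t) x := fun t x =>
    h3 F f Φ hf hsupp hΦ x (Y x) (hY0 x) (hYd x) t
  have hfd : ∀ x, (fun s => fderiv ℝ (Φ s) x) = Y x := fun x => funext fun s => (hD s x).fderiv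
  have hvar : ∀ x t, HasDerivAt (fun s => fderiv ℝ (Φ s) x)
      ((fderiv ℝ f (Φ t x)).comp (fderiv ℝ (Φ t) x)) t := by
    intro x t
    have h := hYd x t
    rw [← hfd x] at h
    exact h
  exact ⟨Φ, ⟨hΦ, fun t x => (hD t x).differentiableAt, hvar, h4 F f Φ hf hsupp hΦ hvar⟩⟩

end Pool.Agent.CRO
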