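import Mathlib

/-!
# Global solutions of ordinary differential equations with Lipschitz right-hand side

(for the rows cro:FLX, cro:LIN, cro:DIF, cro:DCT of MP_5bf3c3_gt)
-/

set_option autoImplicit false

open MeasureTheory Set Filter Topology

noncomputable section

namespace Pool.Agent.CRO

section Exist

variable {F : Type*} [NormedAddCommGroup F] [NormedSpace ℝ F] [CompleteSpace F]

/-- the exponent of the weight -/
def OD_G (k : ℝ → ℝ) (t : ℝ) : ℝ := ∫ s in (0 : ℝ)..t, 2 * k s

theorem OD_G_deriv {k : ℝ → ℝ} (hk : Continuous k) (t : ℝ) : HasDerivAt (OD_G k) (2 * k t) t :=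
  intervalIntegral.integral_hasDerivAt_right ((continuous_const.mul hk).intervalIntegrable _ _)
    ((continuous_const.mul hk).stronglyMeasurableAtFilter _ _) (continuous_const.mul hk).continuousAt

theorem OD_G_cont {k : ℝ → ℝ} (hk : Continuous k) : Continuous (OD_G k) :=
  continuous_iff_continuousAt.2 fun t => (OD_G_deriv hk t).continuousAt

theorem OD_G_nonneg {k : ℝ → ℝ} (hk0 : ∀ t, 0 ≤ k t) {t : ℝ} (ht : 0 ≤ t) : 0 ≤ OD_G k t :=
  intervalIntegral.integral_nonneg ht fun s _ => mul_nonneg (by norm_num) (hk0 s)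

theorem OD_G_nonpos {k : ℝ → ℝ} (hk0 : ∀ t, 0 ≤ k t) {t : ℝ} (ht : t ≤ 0) : OD_G k t ≤ 0 := by
  unfold OD_G
  rw [intervalIntegral.integral_symm, neg_nonpos]
  exact intervalIntegral.integral_nonneg ht fun s _ => mul_nonneg (by norm_num) (hk0 s)

theorem OD_key {k : ℝ → ℝ} (hk : Continuous k) (hk0 : ∀ t, 0 ≤ k t) (t : ℝ) :
    abs (∫ s in (0 : ℝ)..t, k s * Real.exp (abs (OD_G k s))) ≤
      1 / 2 * Real.exp (abs (OD_G k t)) := by
  have hG0 : OD_G k 0 = 0 := intervalIntegral.integral_same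
  rcases le_total 0 t with ht | ht
  · have e1 : ∫ s in (0 : ℝ)..t, k s * Real.exp |OD_G k s| =
        ∫ s in (0 : ℝ)..t, k s * Real.exp (OD_G k s) := by
      refine intervalIntegral.integral_congr fun s hs => ?_
      rw [uIcc_of_le ht] at hs
      simp only [abs_of_nonneg (OD_G_nonneg hk0 hs.1)]
    have e2 : ∫ s in (0 : ℝ)..t, k s * Real.exp (OD_G k s) =
        Real.exp (OD_G k t) / 2 - Real.exp (OD_G k 0) / 2 := by
      refine intervalIntegral.integral_eq_sub_of_hasDerivAt
        (f := fun s => Real.exp (OD_G k s) / 2) (fun s _ => ?_)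
        ((hk.mul (Real.continuous_exp.comp (OD_G_cont hk))).intervalIntegrable _ _)
      have h := ((OD_G_deriv hk s).exp).div_const 2
      have e : Real.exp (OD_G k s) * (2 * k s) / 2 = k s * Real.exp (OD_G k s) := by ring
      rw [e] at h
      exact h
    rw [e1, e2, hG0, Real.exp_zero, abs_of_nonneg (OD_G_nonneg hk0 ht)]
    have h1 : 1 ≤ Real.exp (OD_G k t) := Real.one_le_exp (OD_G_nonneg hk0 ht)
    rw [abs_of_nonneg (by linarith)]
    linarith
  · have e1 : ∫ s in (0 : ℝ)..t, k s * Real.exp |OD_G k s| =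
        ∫ s in (0 : ℝ)..t, k s * Real.exp (-OD_G k s) := by
      refine intervalIntegral.integral_congr fun s hs => ?_
      rw [uIcc_of_ge ht] at hs
      simp only [abs_of_nonpos (OD_G_nonpos hk0 hs.2)]
    have e2 : ∫ s in (0 : ℝ)..t, k s * Real.exp (-OD_G k s) =
        -(Real.exp (-OD_G k t) / 2) - -(Real.exp (-OD_G k 0) / 2) := by
      refine intervalIntegral.integral_eq_sub_of_hasDerivAt
        (f := fun s => -(Real.exp (-OD_G k s) / 2)) (fun s _ => ?_)
        ((hk.mul (Real.continuous_exp.comp (OD_G_cont hk).neg)).intervalIntegrable _ _)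
      have h := (((OD_G_deriv hk s).neg.exp).div_const 2).neg
      have e : -(Real.exp (-OD_G k s) * -(2 * k s) / 2) = k s * Real.exp (-OD_G k s) := by ring
      rw [← e]
      exact h
    rw [e1, e2, hG0, neg_zero, Real.exp_zero, abs_of_nonpos (OD_G_nonpos hk0 ht)]
    have h1 : 1 ≤ Real.exp (-OD_G k t) := Real.one_le_exp (by linarith [OD_G_nonpos hk0 ht])
    rw [abs_of_nonpos (by linarith)]
    linarith

/-- the basic estimate -/
theorem OD_est {k : ℝ → ℝ} (hk : Continuous k) (hk0 : ∀ t, 0 ≤ k t) {g : ℝ → F} {c : ℝ}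
    (hc : 0 ≤ c) (hg : ∀ s, ‖g s‖ ≤ c * (k s * Real.exp |OD_G k s|)) (t : ℝ) :
    ‖∫ s in (0 : ℝ)..t, g s‖ ≤ c / 2 * Real.exp |OD_G k t| := by
  have hint : Continuous fun s => c * (k s * Real.exp |OD_G k s|) :=
    continuous_const.mul (hk.mul (Real.continuous_exp.comp (OD_G_cont hk).abs))
  have h1 := intervalIntegral.norm_integral_le_abs_of_norm_le (μ := volume) (a := 0) (b := t)
    (f := g) (Eventually.of_forall hg) (hint.intervalIntegrable _ _)
  rw [intervalIntegral.integral_const_mul, abs_mul, abs_of_nonneg hc] at h1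
  have h2 := mul_le_mul_of_nonneg_left (OD_key hk hk0 t) hc
  calc ‖∫ s in (0 : ℝ)..t, g s‖ ≤ _ := h1
    _ ≤ _ := h2
    _ = c / 2 * Real.exp |OD_G k t| := by ring

/-- **global existence** -/
theorem OD_exists (v : ℝ → F → F) (k : ℝ → ℝ) (hv : Continuous fun p : ℝ × F => v p.1 p.2)
    (hk : Continuous k) (hk0 : ∀ t, 0 ≤ k t) (hL : ∀ t x y, ‖v t x - v t y‖ ≤ k t * ‖x - y‖)
    (hz : ∀ t, ‖v t 0‖ ≤ k t) (x0 : F) :
    ∃ α : ℝ → F, α 0 = x0 ∧ ∀ t, HasDerivAt α (v t (α t)) t := by
  set W : ℝ → ℝ := fun t => |OD_G k t| with hW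
  have hWc : Continuous W := (OD_G_cont hk).abs
  have hW0 : ∀ t, 0 ≤ W t := fun t => abs_nonneg _
  have hg : ∀ β : BoundedContinuousFunction ℝ F, Continuous fun s => v s (Real.exp (W s) • β s) :=
    fun β => hv.comp (continuous_id.prodMk
      ((Real.continuous_exp.comp hWc).smul β.continuous))
  have hbound : ∀ (β : BoundedContinuousFunction ℝ F) (s : ℝ), ‖v s (Real.exp (W s) • β s)‖ ≤
      (1 + ‖β‖) * (k s * Real.exp (W s)) := by
    intro β s
    have h1 := hL s (Real.exp (W s) • β s) 0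
    rw [sub_zero, norm_smul, Real.norm_of_nonneg (Real.exp_pos _).le] at h1
    have h2 : ‖v s (Real.exp (W s) • β s)‖ ≤ ‖v s (Real.exp (W s) • β s) - v s 0‖ + ‖v s 0‖ :=
      norm_le_norm_sub_add _ _
    have h3 := hz s
    have h4 := β.norm_coe_le_norm s
    have h5 : 1 ≤ Real.exp (W s) := Real.one_le_exp (hW0 s)
    have h6 := hk0 s
    have h7 : k s * (Real.exp (W s) * ‖β s‖) ≤ k s * (Real.exp (W s) * ‖β‖) := by gcongr
    have h8 : k s ≤ k s * Real.exp (W s) := le_mul_of_one_le_right h6 h5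
    calc ‖v s (Real.exp (W s) • β s)‖ ≤ k s * (Real.exp (W s) * ‖β‖) + k s * Real.exp (W s) := by
          linarith
      _ = (1 + ‖β‖) * (k s * Real.exp (W s)) := by ring
  have hIc : ∀ β : BoundedContinuousFunction ℝ F,
      Continuous fun t => ∫ s in (0 : ℝ)..t, v s (Real.exp (W s) • β s) := by
    intro β
    refine continuous_iff_continuousAt.2 fun t => HasDerivAt.continuousAt
      (intervalIntegral.integral_hasDerivAt_right ((hg β).intervalIntegrable _ _)
      ((hg β).stronglyMeasurableAtFilter _ _) (hg β).continuousAt)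
  have hexp : ∀ t, Real.exp (-W t) * Real.exp (W t) = 1 := fun t => by
    rw [← Real.exp_add, neg_add_cancel, Real.exp_zero]
  have hexp1 : ∀ t, Real.exp (-W t) ≤ 1 := fun t => Real.exp_le_one_iff.2 (by linarith [hW0 t])
  let P : BoundedContinuousFunction ℝ F → BoundedContinuousFunction ℝ F := fun β =>
    BoundedContinuousFunction.ofNormedAddCommGroup
      (fun t => Real.exp (-W t) • (x0 + ∫ s in (0 : ℝ)..t, v s (Real.exp (W s) • β s)))
      ((Real.continuous_exp.comp hWc.neg).smul (continuous_const.add (hIc β)))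
      (‖x0‖ + (1 + ‖β‖) / 2) (by
        intro t
        rw [norm_smul, Real.norm_of_nonneg (Real.exp_pos _).le]
        have h1 := OD_est hk hk0 (by positivity) (hbound β) t
        have h2 : ‖x0 + ∫ s in (0 : ℝ)..t, v s (Real.exp (W s) • β s)‖ ≤
            ‖x0‖ + (1 + ‖β‖) / 2 * Real.exp (W t) := (norm_add_le _ _).trans (by gcongr)
        have h3 := mul_le_mul_of_nonneg_left h2 (Real.exp_pos (-W t)).le
        have h4 : Real.exp (-W t) * ‖x0‖ ≤ ‖x0‖ :=
          mul_le_of_le_one_left (norm_nonneg _) (hexp1 t)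
        have h5 : Real.exp (-W t) * ((1 + ‖β‖) / 2 * Real.exp (W t)) = (1 + ‖β‖) / 2 := by
          rw [mul_left_comm, hexp, mul_one]
        rw [mul_add, h5] at h3
        linarith)
  have hPa : ∀ β t, P β t =
      Real.exp (-W t) • (x0 + ∫ s in (0 : ℝ)..t, v s (Real.exp (W s) • β s)) := fun β t => rfl
  have hcon : ContractingWith (1 / 2) P := by
    refine ⟨by
      rw [← NNReal.coe_lt_coe]
      norm_num, LipschitzWith.of_dist_le_mul fun β γ => ?_⟩
    rw [BoundedContinuousFunction.dist_le (by positivity)]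
    intro t
    have e1 : P β t - P γ t = Real.exp (-W t) • ∫ s in (0 : ℝ)..t,
        (v s (Real.exp (W s) • β s) - v s (Real.exp (W s) • γ s)) := by
      rw [hPa, hPa, ← smul_sub, add_sub_add_left_eq_sub,
        intervalIntegral.integral_sub ((hg β).intervalIntegrable _ _)
          ((hg γ).intervalIntegrable _ _)]
    have h2 : ∀ s, ‖v s (Real.exp (W s) • β s) - v s (Real.exp (W s) • γ s)‖ ≤
        dist β γ * (k s * Real.exp (W s)) := by
      intro s
      have h3 := hL s (Real.exp (W s) • β s) (Real.exp (W s) • γ s)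
      rw [← smul_sub, norm_smul, Real.norm_of_nonneg (Real.exp_pos _).le,
        ← dist_eq_norm (β s) (γ s)] at h3
      have h4 := β.dist_coe_le_dist (g := γ) s
      have h5 : k s * (Real.exp (W s) * dist (β s) (γ s)) ≤
          k s * (Real.exp (W s) * dist β γ) := by
        have := hk0 s
        gcongr
      calc _ ≤ k s * (Real.exp (W s) * dist (β s) (γ s)) := h3
        _ ≤ _ := h5
        _ = dist β γ * (k s * Real.exp (W s)) := by ring
    have h6 := OD_est hk hk0 dist_nonneg h2 t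
    rw [dist_eq_norm, e1, norm_smul, Real.norm_of_nonneg (Real.exp_pos _).le]
    have h7 := mul_le_mul_of_nonneg_left h6 (Real.exp_pos (-W t)).le
    have h8 : Real.exp (-W t) * (dist β γ / 2 * Real.exp (W t)) = dist β γ / 2 := by
      rw [mul_left_comm, hexp, mul_one]
    rw [h8] at h7
    have h9 : (((1 / 2 : NNReal)) : ℝ) = 1 / 2 := by norm_num
    rw [h9]
    linarith
  obtain ⟨β, hβ⟩ : ∃ β, P β = β := ⟨_, hcon.fixedPoint_isFixedPt⟩
  let α : ℝ → F := fun t => Real.exp (W t) • β t
  have hα : ∀ t, α t = x0 + ∫ s in (0 : ℝ)..t, v s (α s) := by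
    intro t
    have h1 := congrArg (fun γ : BoundedContinuousFunction ℝ F => γ t) hβ
    have h2 : Real.exp (-W t) • (x0 + ∫ s in (0 : ℝ)..t, v s (Real.exp (W s) • β s)) = β t := h1
    show Real.exp (W t) • β t = _
    rw [← h2, smul_smul, mul_comm, hexp, one_smul]
  refine ⟨α, ?_, fun t => ?_⟩
  · rw [hα, intervalIntegral.integral_same, add_zero]
  · have h1 : HasDerivAt (fun t => x0 + ∫ s in (0 : ℝ)..t, v s (α s)) (v t (α t)) t :=
      (intervalIntegral.integral_hasDerivAt_right ((hg β).intervalIntegrable _ _)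
      ((hg β).stronglyMeasurableAtFilter _ _) (hg β).continuousAt).const_add x0
    exact h1.congr_of_eventuallyEq (Eventually.of_forall hα)

end Exist

end Pool.Agent.CRO
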