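import Pool.Agent.helper58.CRO.SpecA
import Pool.Agent.helper16.CRO.Ode

/-!
# Existence of the flow (row cro:FLX)
-/

open scoped Manifold ContDiff Topology ENNReal
open MeasureTheory Set Filter

noncomputable section

namespace Pool.Agent.CRO

section

variable {F : Type} [NormedAddCommGroup F] [NormedSpace ℝ F]

/-- Gronwall estimate for nonnegative times -/
theorem FLX_gron {f : F → F} {K : NNReal} (hK : LipschitzWith K f) {α β : ℝ → F}
    (hα : ∀ t, HasDerivAt α (f (α t)) t) (hβ : ∀ t, HasDerivAt β (f (β t)) t) {t : ℝ}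
    (ht : 0 ≤ t) : dist (α t) (β t) ≤ dist (α 0) (β 0) * Real.exp (K * t) := by
  have h := dist_le_of_trajectories_ODE (v := fun _ => f) (K := K) (f := α) (g := β) (a := 0)
    (b := t) (δ := dist (α 0) (β 0)) (fun _ => hK)
    (fun s _ => (hα s).continuousAt.continuousWithinAt) (fun s _ => (hα s).hasDerivWithinAt)
    (fun s _ => (hβ s).continuousAt.continuousWithinAt) (fun s _ => (hβ s).hasDerivWithinAt) le_rfl
    t ⟨ht, le_rfl⟩
  rwa [sub_zero] at h

theorem FLX_rev {f : F → F} {α : ℝ → F} (hα : ∀ t, HasDerivAt α (f (α t)) t) (t : ℝ) :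
    HasDerivAt (fun s => α (-s)) (-f (α (-t))) t := by
  have h := (hα (-t)).scomp t (hasDerivAt_neg t)
  rw [neg_smul, one_smul] at h
  exact h

/-- Gronwall estimate -/
theorem FLX_gron' {f : F → F} {K : NNReal} (hK : LipschitzWith K f) {α β : ℝ → F}
    (hα : ∀ t, HasDerivAt α (f (α t)) t) (hβ : ∀ t, HasDerivAt β (f (β t)) t) (t : ℝ) :
    dist (α t) (β t) ≤ dist (α 0) (β 0) * Real.exp (K * |t|) := by
  rcases le_total 0 t with ht | ht
  · rw [abs_of_nonneg ht]
    exact FLX_gron hK hα hβ ht
  · have hK' : LipschitzWith K fun x => -f x := by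
      have := hK.neg
      exact this
    have h := FLX_gron (f := fun x => -f x) hK' (α := fun s => α (-s)) (β := fun s => β (-s))
      (FLX_rev hα) (FLX_rev hβ) (t := -t) (by linarith)
    rw [neg_neg, neg_zero] at h
    rw [abs_of_nonpos ht]
    exact h

end

/-- **FLX**: existence of the flow. -/
theorem FLX : FLX_stmt := by
  intro F _ _ _ f hf hsupp
  haveI : CompleteSpace F := FiniteDimensional.complete ℝ F
  obtain ⟨K, hK⟩ := ContDiff.lipschitzWith_of_hasCompactSupport hsupp hf one_ne_zero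
  have hex : ∀ x : F, ∃ α : ℝ → F, α 0 = x ∧ ∀ t, HasDerivAt α (f (α t)) t := by
    intro x
    refine OD_exists (fun _ => f) (fun _ => (K : ℝ) + ‖f 0‖) (hf.continuous.comp continuous_snd)
      continuous_const (fun _ => by positivity) (fun t x y => ?_) (fun t => ?_) x
    · have h := hK.norm_sub_le x y
      have h2 : (0 : ℝ) ≤ ‖f 0‖ * ‖x - y‖ := by positivity
      rw [add_mul]
      linarith
    · have : (0 : ℝ) ≤ K := K.2
      linarith
  choose α hα0 hα using hex
  have huniq : ∀ β γ : ℝ → F, (∀ t, HasDerivAt β (f (β t)) t) → (∀ t, HasDerivAt γ (f (γ t)) t) →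
      β 0 = γ 0 → β = γ := by
    intro β γ hβ hγ h0
    funext t
    have h := FLX_gron' hK hβ hγ t
    rw [h0, dist_self, zero_mul] at h
    exact dist_le_zero.1 h
  refine ⟨fun t x => α x t, hα0, fun x t => hα x t, ?_, ?_⟩
  · intro s t x
    have h := huniq (fun s => α x (s + t)) (α (α x t)) (fun s => (hα x (s + t)).comp_add_const s t)
      (hα _) (by rw [hα0, zero_add])
    exact congrFun h s
  · rw [continuous_iff_continuousAt]
    rintro ⟨t₀, x₀⟩
    rw [ContinuousAt, tendsto_iff_dist_tendsto_zero]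
    have hb : ∀ q : ℝ × F, dist (α q.2 q.1) (α x₀ t₀) ≤
        dist q.2 x₀ * Real.exp (K * |q.1|) + dist (α x₀ q.1) (α x₀ t₀) := by
      intro q
      refine (dist_triangle _ (α x₀ q.1) _).trans ?_
      have h := FLX_gron' hK (hα q.2) (hα x₀) q.1
      rw [hα0, hα0] at h
      linarith
    refine squeeze_zero (fun q => dist_nonneg) hb ?_
    have h1 : Continuous fun q : ℝ × F => dist q.2 x₀ * Real.exp (K * |q.1|) :=
      (continuous_snd.dist continuous_const).mul
        (Real.continuous_exp.comp (continuous_const.mul continuous_fst.abs))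
    have hc : Continuous (α x₀) := continuous_iff_continuousAt.2 fun t => (hα x₀ t).continuousAt
    have h2 : Continuous fun q : ℝ × F => dist (α x₀ q.1) (α x₀ t₀) :=
      (hc.comp continuous_fst).dist continuous_const
    have h3 : Tendsto (fun q : ℝ × F => dist q.2 x₀ * Real.exp (K * |q.1|) +
        dist (α x₀ q.1) (α x₀ t₀)) (𝓝 (t₀, x₀)) (𝓝 (dist x₀ x₀ * Real.exp (K * |t₀|) +
        dist (α x₀ t₀) (α x₀ t₀))) := (h1.add h2).tendsto (t₀, x₀)
    rw [dist_self, dist_self, zero_mul, add_zero] at h3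
    exact h3

end Pool.Agent.CRO
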