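import Pool.Agent.helper58.CRO.SpecA
import Pool.Agent.helper16.CRO.FLX

/-!
# Differentiability of the flow (row cro:DIF)
-/

open scoped Manifold ContDiff Topology ENNReal
open MeasureTheory Set Filter

noncomputable section

namespace Pool.Agent.CRO

section

variable {F : Type} [NormedAddCommGroup F] [NormedSpace ℝ F]

/-- second order Taylor estimate -/
theorem DIF_taylor {f : F → F} {f' : F → F →L[ℝ] F} (hf' : ∀ y, HasFDerivAt f (f' y) y)
    {L : NNReal} (hL : LipschitzWith L f') (a b : F) :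
    ‖f b - f a - f' a (b - a)‖ ≤ L * ‖b - a‖ * ‖b - a‖ := by
  refine Convex.norm_image_sub_le_of_norm_hasFDerivWithin_le' (s := segment ℝ a b)
    (fun z _ => (hf' z).hasFDerivWithinAt) (fun z hz => ?_) (convex_segment a b)
    (left_mem_segment ℝ a b) (right_mem_segment ℝ a b)
  have h1 := hL.norm_sub_le z a
  have h2 : ‖z - a‖ ≤ ‖b - a‖ := by
    obtain ⟨s, t, hs, ht, hst, rfl⟩ := hz
    have e : s • a + t • b - a = t • (b - a) := by
      have : s = 1 - t := by linarith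
      rw [this, sub_smul, one_smul, smul_sub]
      abel
    rw [e, norm_smul, Real.norm_of_nonneg ht]
    exact mul_le_of_le_one_left (norm_nonneg _) (by linarith)
  exact h1.trans (mul_le_mul_of_nonneg_left h2 L.2)

/-- Gronwall with zero initial value -/
theorem DIF_gron {E : Type*} [NormedAddCommGroup E] [NormedSpace ℝ E] {z z' : ℝ → E} {K ε t : ℝ}
    (hK : 0 ≤ K) (hε : 0 ≤ ε) (ht : 0 ≤ t) (hz : ∀ s, HasDerivAt z (z' s) s) (hz0 : z 0 = 0)
    (hb : ∀ s, 0 ≤ s → s ≤ t → ‖z' s‖ ≤ K * ‖z s‖ + ε) :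
    ‖z t‖ ≤ ε * Real.exp ((K + 1) * t) := by
  have h := norm_le_gronwallBound_of_norm_deriv_right_le (f := z) (f' := z') (δ := 0) (K := K + 1)
    (ε := ε) (a := 0) (b := t) (fun s _ => (hz s).continuousAt.continuousWithinAt)
    (fun s _ => (hz s).hasDerivWithinAt) (by rw [hz0, norm_zero]) (fun s hs => by
      have := hb s hs.1 hs.2.le
      have h2 := norm_nonneg (z s)
      rw [add_mul, one_mul]
      linarith) t ⟨ht, le_rfl⟩
  rw [gronwallBound_of_K_ne_0 (by positivity), sub_zero] at h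
  beta_reduce at h
  rw [zero_mul, zero_add] at h
  refine h.trans ?_
  have h3 : 1 ≤ Real.exp ((K + 1) * t) := Real.one_le_exp (by positivity)
  have h4 : ε / (K + 1) ≤ ε := div_le_self hε (by linarith)
  calc ε / (K + 1) * (Real.exp ((K + 1) * t) - 1) ≤ ε * (Real.exp ((K + 1) * t) - 1) :=
        mul_le_mul_of_nonneg_right h4 (by linarith)
    _ ≤ ε * Real.exp ((K + 1) * t) := mul_le_mul_of_nonneg_left (by linarith) hε

theorem DIF_fwd {f : F → F} {Φ : ℝ → F → F} {f' : F → F →L[ℝ] F}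
    (hf' : ∀ y, HasFDerivAt f (f' y) y) {K L : NNReal} (hK : LipschitzWith K f)
    (hL : LipschitzWith L f') (h0 : ∀ x, Φ 0 x = x)
    (hode : ∀ x t, HasDerivAt (fun s => Φ s x) (f (Φ t x)) t) (x : F) (Y : ℝ → F →L[ℝ] F)
    (hY0 : Y 0 = ContinuousLinearMap.id ℝ F)
    (hY : ∀ t, HasDerivAt Y ((f' (Φ t x)).comp (Y t)) t) {t : ℝ} (ht : 0 ≤ t) :
    HasFDerivAt (Φ t) (Y t) x := by
  rw [hasFDerivAt_iff_isLittleO_nhds_zero]
  have hbound : ∀ h : F, ‖Φ t (x + h) - Φ t x - Y t h‖ ≤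
      (L * Real.exp (K * t) ^ 2 * Real.exp ((K + 1) * t)) * ‖‖h‖ ^ 2‖ := by
    intro h
    have hz : ∀ s, HasDerivAt (fun s => Φ s (x + h) - Φ s x - Y s h)
        (f (Φ s (x + h)) - f (Φ s x) - f' (Φ s x) (Y s h)) s := by
      intro s
      have h1 : HasDerivAt (fun s => Y s h) (f' (Φ s x) (Y s h)) s := by
        have h2 := (hY s).clm_apply (hasDerivAt_const s h)
        simp only [ContinuousLinearMap.comp_apply, map_zero, add_zero] at h2
        exact h2
      exact ((hode (x + h) s).sub (hode x s)).sub h1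
    have hest : ∀ s, 0 ≤ s → s ≤ t → ‖f (Φ s (x + h)) - f (Φ s x) - f' (Φ s x) (Y s h)‖ ≤
        K * ‖Φ s (x + h) - Φ s x - Y s h‖ + L * Real.exp (K * t) ^ 2 * ‖h‖ ^ 2 := by
      intro s hs hst
      have e1 : f (Φ s (x + h)) - f (Φ s x) - f' (Φ s x) (Y s h) =
          f' (Φ s x) (Φ s (x + h) - Φ s x - Y s h) +
            (f (Φ s (x + h)) - f (Φ s x) - f' (Φ s x) (Φ s (x + h) - Φ s x)) := by
        rw [map_sub (f' (Φ s x)) (Φ s (x + h) - Φ s x) (Y s h)]
        abel
      have e2 := DIF_taylor hf' hL (Φ s x) (Φ s (x + h))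
      have e3 := FLX_gron hK (hode (x + h)) (hode x) hs
      simp only [h0] at e3
      rw [dist_eq_norm, dist_eq_norm, add_sub_cancel_left] at e3
      have e4 : Real.exp (K * s) ≤ Real.exp (K * t) :=
        Real.exp_le_exp.2 (mul_le_mul_of_nonneg_left hst K.2)
      have e5 : ‖Φ s (x + h) - Φ s x‖ ≤ ‖h‖ * Real.exp (K * t) :=
        e3.trans (mul_le_mul_of_nonneg_left e4 (norm_nonneg _))
      have e6 : (L : ℝ) * ‖Φ s (x + h) - Φ s x‖ * ‖Φ s (x + h) - Φ s x‖ ≤
          L * Real.exp (K * t) ^ 2 * ‖h‖ ^ 2 := by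
        calc (L : ℝ) * ‖Φ s (x + h) - Φ s x‖ * ‖Φ s (x + h) - Φ s x‖
            ≤ L * (‖h‖ * Real.exp (K * t)) * (‖h‖ * Real.exp (K * t)) := by gcongr
          _ = L * Real.exp (K * t) ^ 2 * ‖h‖ ^ 2 := by ring
      have e7 : ‖f' (Φ s x) (Φ s (x + h) - Φ s x - Y s h)‖ ≤
          K * ‖Φ s (x + h) - Φ s x - Y s h‖ :=
        (f' (Φ s x)).le_of_opNorm_le ((hf' _).le_of_lipschitz hK) _
      rw [e1]
      refine (norm_add_le _ _).trans ?_
      linarith
    have h3 := DIF_gron (z := fun s => Φ s (x + h) - Φ s x - Y s h)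
      (K := K) (ε := L * Real.exp (K * t) ^ 2 * ‖h‖ ^ 2) K.2 (by positivity) ht hz
      (by simp [h0, hY0]) hest
    refine h3.trans (le_of_eq ?_)
    rw [Real.norm_of_nonneg (by positivity)]
    ring
  exact (Asymptotics.IsBigO.of_bound _ (Eventually.of_forall hbound)).trans_isLittleO
    (Asymptotics.isLittleO_norm_pow_id (by norm_num))

end

/-- **DIF**: differentiability of the flow. -/
theorem DIF : DIF_stmt := by
  intro F _ _ _ f Φ hf hsupp hΦ x Y hY0 hY t
  obtain ⟨K, hK⟩ := ContDiff.lipschitzWith_of_hasCompactSupport hsupp hf two_ne_zero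
  have hf1 : ContDiff ℝ 1 (fderiv ℝ f) := hf.fderiv_right (by norm_num)
  obtain ⟨L, hL⟩ := ContDiff.lipschitzWith_of_hasCompactSupport (hsupp.fderiv ℝ) hf1 one_ne_zero
  have hf' : ∀ y, HasFDerivAt f (fderiv ℝ f y) y := fun y =>
    (hf.differentiable two_ne_zero y).hasFDerivAt
  rcases le_total 0 t with ht | ht
  · exact DIF_fwd hf' hK hL hΦ.zero hΦ.ode x Y hY0 hY ht
  · have h := DIF_fwd (f := fun y => -f y) (Φ := fun s => Φ (-s)) (f' := fun y => -fderiv ℝ f y)
      (fun y => (hf' y).neg) (K := K) (L := L) hK.neg hL.neg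
      (fun y => by rw [neg_zero, hΦ.zero]) (fun y s => FLX_rev (hΦ.ode y) s) x (fun s => Y (-s))
      (by rw [neg_zero, hY0]) (fun s => by
        have h2 := (hY (-s)).scomp s (hasDerivAt_neg s)
        rw [neg_smul, one_smul] at h2
        rw [ContinuousLinearMap.neg_comp]
        exact h2) (t := -t) (by linarith)
    simp only [neg_neg] at h
    exact h

end Pool.Agent.CRO
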