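import Pool.Agent.helper58.CRO.SpecA
import Pool.Agent.helper16.CRO.DIF

/-!
# Joint continuity of the derivative of the flow (row cro:DCT)
-/

open scoped Manifold ContDiff Topology ENNReal
open MeasureTheory Set Filter

noncomputable section

namespace Pool.Agent.CRO

section

variable {F : Type} [NormedAddCommGroup F] [NormedSpace ℝ F]

theorem DCT_fwd {f : F → F} {Φ : ℝ → F → F} {f' : F → F →L[ℝ] F}
    (hf' : ∀ y, HasFDerivAt f (f' y) y) {K L : NNReal} (hK : LipschitzWith K f)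
    (hL : LipschitzWith L f') (h0 : ∀ x, Φ 0 x = x)
    (hode : ∀ x t, HasDerivAt (fun s => Φ s x) (f (Φ t x)) t) (Y : F → ℝ → F →L[ℝ] F)
    (hY0 : ∀ x, Y x 0 = ContinuousLinearMap.id ℝ F)
    (hY : ∀ x t, HasDerivAt (Y x) ((f' (Φ t x)).comp (Y x t)) t) {t : ℝ} (ht : 0 ≤ t) (x x' : F) :
    ‖Y x' t - Y x t‖ ≤ L * Real.exp (K * t) * Real.exp ((K + 1) * t) * Real.exp ((K + 1) * t) *
      ‖x' - x‖ := by
  have hf'K : ∀ y, ‖f' y‖ ≤ K := fun y => (hf' y).le_of_lipschitz hK
  -- the norm of Y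
  have hYn : ∀ s, 0 ≤ s → ‖Y x s‖ ≤ Real.exp (K * s) := by
    intro s hs
    have h := norm_le_gronwallBound_of_norm_deriv_right_le (f := Y x)
      (f' := fun r => (f' (Φ r x)).comp (Y x r)) (δ := 1) (K := K)
      (ε := 0) (a := 0) (b := s) (fun r _ => (hY x r).continuousAt.continuousWithinAt)
      (fun r _ => (hY x r).hasDerivWithinAt) (by
        rw [hY0]
        exact ContinuousLinearMap.norm_id_le) (fun r _ => by
        rw [add_zero]
        exact (ContinuousLinearMap.opNorm_comp_le _ _).trans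
          (mul_le_mul_of_nonneg_right (hf'K _) (norm_nonneg _))) s ⟨hs, le_rfl⟩
    rw [gronwallBound_ε0, one_mul, sub_zero] at h
    exact h
  have hest : ∀ s, 0 ≤ s → s ≤ t →
      ‖(f' (Φ s x')).comp (Y x' s) - (f' (Φ s x)).comp (Y x s)‖ ≤
        K * ‖Y x' s - Y x s‖ + L * Real.exp (K * t) * Real.exp ((K + 1) * t) * ‖x' - x‖ := by
    intro s hs hst
    have e1 : (f' (Φ s x')).comp (Y x' s) - (f' (Φ s x)).comp (Y x s) =
        (f' (Φ s x')).comp (Y x' s - Y x s) + (f' (Φ s x') - f' (Φ s x)).comp (Y x s) := by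
      rw [ContinuousLinearMap.comp_sub, ContinuousLinearMap.sub_comp]
      abel
    have e3 := FLX_gron hK (hode x') (hode x) hs
    simp only [h0] at e3
    rw [dist_eq_norm, dist_eq_norm] at e3
    have e2 := hL.norm_sub_le (Φ s x') (Φ s x)
    have e4 : Real.exp (K * s) ≤ Real.exp (K * t) :=
      Real.exp_le_exp.2 (mul_le_mul_of_nonneg_left hst K.2)
    have e4' : Real.exp (K * s) ≤ Real.exp ((K + 1) * t) := by
      refine e4.trans (Real.exp_le_exp.2 ?_)
      rw [add_mul, one_mul]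
      linarith
    have e5 : ‖Φ s x' - Φ s x‖ ≤ ‖x' - x‖ * Real.exp (K * t) :=
      e3.trans (mul_le_mul_of_nonneg_left e4 (norm_nonneg _))
    have e6 : ‖(f' (Φ s x') - f' (Φ s x)).comp (Y x s)‖ ≤
        L * Real.exp (K * t) * Real.exp ((K + 1) * t) * ‖x' - x‖ := by
      refine (ContinuousLinearMap.opNorm_comp_le _ _).trans ?_
      have h1 : ‖f' (Φ s x') - f' (Φ s x)‖ ≤ L * (‖x' - x‖ * Real.exp (K * t)) :=
        e2.trans (mul_le_mul_of_nonneg_left e5 L.2)
      calc ‖f' (Φ s x') - f' (Φ s x)‖ * ‖Y x s‖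
          ≤ L * (‖x' - x‖ * Real.exp (K * t)) * Real.exp ((K + 1) * t) :=
            mul_le_mul h1 ((hYn s hs).trans e4') (norm_nonneg _) (by positivity)
        _ = _ := by ring
    have e7 : ‖(f' (Φ s x')).comp (Y x' s - Y x s)‖ ≤ K * ‖Y x' s - Y x s‖ :=
      (ContinuousLinearMap.opNorm_comp_le _ _).trans
        (mul_le_mul_of_nonneg_right (hf'K _) (norm_nonneg _))
    rw [e1]
    refine (norm_add_le _ _).trans ?_
    linarith
  have h := DIF_gron (z := fun s => Y x' s - Y x s) (K := K)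
    (ε := L * Real.exp (K * t) * Real.exp ((K + 1) * t) * ‖x' - x‖) K.2 (by positivity) ht
    (fun s => (hY x' s).sub (hY x s)) (by simp [hY0]) hest
  refine h.trans (le_of_eq ?_)
  ring

end

/-- **DCT**: joint continuity of the derivative of the flow. -/
theorem DCT : DCT_stmt := by
  intro F _ _ _ f Φ hf hsupp hΦ hvar
  obtain ⟨K, hK⟩ := ContDiff.lipschitzWith_of_hasCompactSupport hsupp hf two_ne_zero
  have hf1 : ContDiff ℝ 1 (fderiv ℝ f) := hf.fderiv_right (by norm_num)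
  obtain ⟨L, hL⟩ := ContDiff.lipschitzWith_of_hasCompactSupport (hsupp.fderiv ℝ) hf1 one_ne_zero
  have hf' : ∀ y, HasFDerivAt f (fderiv ℝ f y) y := fun y =>
    (hf.differentiable two_ne_zero y).hasFDerivAt
  have hY0 : ∀ x, fderiv ℝ (Φ 0) x = ContinuousLinearMap.id ℝ F := by
    intro x
    have : Φ 0 = id := funext fun y => hΦ.zero y
    rw [this, fderiv_id]
  have hbd : ∀ (t : ℝ) (x x' : F), ‖fderiv ℝ (Φ t) x' - fderiv ℝ (Φ t) x‖ ≤
      L * Real.exp (K * |t|) * Real.exp ((K + 1) * |t|) * Real.exp ((K + 1) * |t|) *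
        ‖x' - x‖ := by
    intro t x x'
    rcases le_total 0 t with ht | ht
    · rw [abs_of_nonneg ht]
      exact DCT_fwd hf' hK hL hΦ.zero hΦ.ode (fun x t => fderiv ℝ (Φ t) x) hY0 hvar ht x x'
    · rw [abs_of_nonpos ht]
      have h := DCT_fwd (f := fun y => -f y) (Φ := fun s => Φ (-s)) (f' := fun y => -fderiv ℝ f y)
        (fun y => (hf' y).neg) (K := K) (L := L) hK.neg hL.neg
        (fun y => by rw [neg_zero, hΦ.zero]) (fun y s => FLX_rev (hΦ.ode y) s)
        (fun x t => fderiv ℝ (Φ (-t)) x) (fun x => by rw [neg_zero, hY0]) (fun x s => by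
          have h2 := (hvar x (-s)).scomp s (hasDerivAt_neg s)
          rw [neg_smul, one_smul] at h2
          rw [ContinuousLinearMap.neg_comp]
          exact h2) (t := -t) (by linarith) x x'
      simp only [neg_neg] at h
      exact h
  rw [continuous_iff_continuousAt]
  rintro ⟨t₀, x₀⟩
  rw [ContinuousAt, tendsto_iff_dist_tendsto_zero]
  have hb : ∀ q : ℝ × F, dist (fderiv ℝ (Φ q.1) q.2) (fderiv ℝ (Φ t₀) x₀) ≤
      L * Real.exp (K * |q.1|) * Real.exp ((K + 1) * |q.1|) * Real.exp ((K + 1) * |q.1|) *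
        dist q.2 x₀ + dist (fderiv ℝ (Φ q.1) x₀) (fderiv ℝ (Φ t₀) x₀) := by
    intro q
    refine (dist_triangle _ (fderiv ℝ (Φ q.1) x₀) _).trans ?_
    have h := hbd q.1 x₀ q.2
    rw [← dist_eq_norm, ← dist_eq_norm] at h
    linarith
  refine squeeze_zero (fun q => dist_nonneg) hb ?_
  have habs : Continuous fun q : ℝ × F => |q.1| := continuous_fst.abs
  have h1 : Continuous fun q : ℝ × F => L * Real.exp (K * |q.1|) * Real.exp ((K + 1) * |q.1|) *
      Real.exp ((K + 1) * |q.1|) * dist q.2 x₀ :=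
    ((((continuous_const.mul (Real.continuous_exp.comp (continuous_const.mul habs))).mul
      (Real.continuous_exp.comp (continuous_const.mul habs))).mul
      (Real.continuous_exp.comp (continuous_const.mul habs))).mul
      (continuous_snd.dist continuous_const))
  have hc : Continuous fun s => fderiv ℝ (Φ s) x₀ :=
    continuous_iff_continuousAt.2 fun t => (hvar x₀ t).continuousAt
  have h2 : Continuous fun q : ℝ × F => dist (fderiv ℝ (Φ q.1) x₀) (fderiv ℝ (Φ t₀) x₀) :=
    (hc.comp continuous_fst).dist continuous_const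
  have h3 : Tendsto (fun q : ℝ × F => L * Real.exp (K * |q.1|) * Real.exp ((K + 1) * |q.1|) *
      Real.exp ((K + 1) * |q.1|) * dist q.2 x₀ +
      dist (fderiv ℝ (Φ q.1) x₀) (fderiv ℝ (Φ t₀) x₀)) (𝓝 (t₀, x₀))
      (𝓝 (L * Real.exp (K * |t₀|) * Real.exp ((K + 1) * |t₀|) *
      Real.exp ((K + 1) * |t₀|) * dist x₀ x₀ +
      dist (fderiv ℝ (Φ t₀) x₀) (fderiv ℝ (Φ t₀) x₀))) := (h1.add h2).tendsto (t₀, x₀)
  rw [dist_self, dist_self, mul_zero, add_zero] at h3
  exact h3

end Pool.Agent.CRO
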