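import Pool.Agent.helper58.CRO.SpecA
import Pool.Agent.helper16.CRO.Ode

/-!
# Linear equations have global solutions (row cro:LIN)
-/

open scoped Manifold ContDiff Topology ENNReal
open MeasureTheory Set

noncomputable section

namespace Pool.Agent.CRO

/-- **LIN**: linear equations have global solutions. -/
theorem LIN : LIN_stmt := by
  intro F _ _ _ A hA
  haveI : CompleteSpace F := FiniteDimensional.complete ℝ F
  obtain ⟨Y, hY0, hY⟩ := OD_exists (F := F →L[ℝ] F) (fun t Y => (A t).comp Y) (fun t => ‖A t‖)
    ((hA.comp continuous_fst).clm_comp continuous_snd) hA.norm (fun t => norm_nonneg _)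
    (fun t x y => by
      rw [← ContinuousLinearMap.comp_sub]
      exact ContinuousLinearMap.opNorm_comp_le _ _)
    (fun t => by
      rw [ContinuousLinearMap.comp_zero, norm_zero]
      exact norm_nonneg _)
    (ContinuousLinearMap.id ℝ F)
  exact ⟨Y, hY0, hY⟩

end Pool.Agent.CRO
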