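import Pool.Agent.helper58.CRO.SpecD

/-!
# Lower bound for the optimal constant (row cro:CST)
-/

open scoped Manifold ContDiff Topology ENNReal
open MeasureTheory Set Bundle

noncomputable section

namespace Pool.Agent.CRO

theorem CST_gvol_mono {n : ℕ} {M : Type*} [TopologicalSpace M] [ChartedSpace (En n) M]
    [IsManifold (𝓡 n) ∞ M] (g : RMetric n M) {A A' : Set M} (h : A ⊆ A') :
    gvol g A ≤ gvol g A' := by
  unfold gvol
  refine iSup_mono fun k => iSup_mono fun e => iSup_mono fun S => iSup_mono' fun hS => ?_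
  exact ⟨⟨hS.1, hS.2.1, fun i => (hS.2.2.1 i).trans (inter_subset_inter_left _ h), hS.2.2.2⟩,
    le_rfl⟩

theorem CST_gball_mono {n : ℕ} {M : Type*} [TopologicalSpace M] [ChartedSpace (En n) M]
    [IsManifold (𝓡 n) ∞ M] (g : RMetric n M) (m : M) {r r' : ℝ} (h : r ≤ r') :
    gball g m r ⊆ gball g m r' := fun _ hx =>
  lt_of_lt_of_le hx (ENNReal.ofReal_le_ofReal h)

/-- **CST**: lower bound for the optimal constant. -/
theorem CST (h1 : FNL_stmt.{0}) : CST_stmt := by
  intro ε hε0 hε1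
  obtain ⟨n0, hn0⟩ := h1 ε hε0 hε1
  refine ⟨n0, fun n hn => ?_⟩
  unfold cstar
  refine le_sInf ?_
  rintro c ⟨M, i1, i2, i3, i4, i5, i6, g, m, r, hr, hinj, rfl⟩
  have h2 := hn0 n hn M g m (r / 2) (by positivity) (by
    rw [mul_div_cancel₀ r two_ne_zero]
    exact hinj)
  rw [mul_div_cancel₀ r two_ne_zero] at h2
  have h3 : gvol g (gball g m (r / 2)) ≤ gvol g (gball g m r) :=
    CST_gvol_mono g (CST_gball_mono g m (by linarith))
  have hrn : 0 < r ^ n := pow_pos hr n
  rw [ENNReal.le_div_iff_mul_le (Or.inl (ENNReal.ofReal_pos.2 hrn).ne')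
    (Or.inl ENNReal.ofReal_ne_top), ← ENNReal.ofReal_mul' hrn.le]
  refine le_trans (le_of_eq ?_) (h2.trans h3)
  congr 1
  rw [div_pow]
  ring

end Pool.Agent.CRO
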