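import Pool.Agent.helper58.CRO.SpecC

/-!
# The error terms (row cro:FI2)
-/

open scoped Manifold ContDiff Topology ENNReal
open MeasureTheory Set

noncomputable section

namespace Pool.Agent.CRO

theorem FI2_sqrt {x η : ℝ} (hη : 0 < η) : Real.sqrt x ≤ η / 2 + max x 0 / (2 * η) := by
  have h1 : Real.sqrt x ≤ Real.sqrt (max x 0) := Real.sqrt_le_sqrt (le_max_left _ _)
  refine h1.trans ?_
  have h0 : 0 ≤ max x 0 := le_max_right _ _
  set y := max x 0
  have h2 : Real.sqrt y ^ 2 = y := Real.sq_sqrt h0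
  have h3 : 0 ≤ (Real.sqrt y - η) ^ 2 := sq_nonneg _
  have h4 : η / 2 + y / (2 * η) = (η ^ 2 + y) / (2 * η) := by
    field_simp
  rw [h4, le_div_iff₀ (by positivity)]
  nlinarith

/-- one term -/
theorem FI2_term {a b d η : ℝ} (ha : 0 < a) (hab : a ≤ b) (hd0 : 0 < d) (hd1 : d < 1)
    (hη : 0 < η) : Real.sqrt (1 - ((1 - d) * a / b) ^ 2) ≤
      η / 2 + d / η + (Real.log b - Real.log a) / η := by
  have hb : 0 < b := lt_of_lt_of_le ha hab
  have hr0 : 0 < a / b := div_pos ha hb
  have hr1 : a / b ≤ 1 := (div_le_one hb).2 hab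
  have hlog : 1 - (a / b) ^ 2 ≤ 2 * (Real.log b - Real.log a) := by
    have h1 := Real.log_le_sub_one_of_pos (show 0 < (a / b) ^ 2 by positivity)
    rw [Real.log_pow, Real.log_div ha.ne' hb.ne'] at h1
    push_cast at h1
    linarith
  have hlog0 : 0 ≤ Real.log b - Real.log a := by
    have := Real.log_le_log ha hab
    linarith
  have h2 := FI2_sqrt (x := 1 - ((1 - d) * a / b) ^ 2) hη
  have h3 : 1 - ((1 - d) * a / b) ^ 2 ≤ 2 * d + 2 * (Real.log b - Real.log a) := by
    have e : (1 - d) * a / b = (1 - d) * (a / b) := by ring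
    have e2 : (2 * d - d ^ 2) * (a / b) ^ 2 ≤ 2 * d := by
      have h5 : (a / b) ^ 2 ≤ 1 := by
        rw [sq_le_one_iff₀ hr0.le]
        exact hr1
      have h6 : 0 ≤ 2 * d - d ^ 2 := by nlinarith
      calc (2 * d - d ^ 2) * (a / b) ^ 2 ≤ (2 * d - d ^ 2) * 1 :=
            mul_le_mul_of_nonneg_left h5 h6
        _ ≤ 2 * d := by nlinarith [sq_nonneg d]
    rw [e]
    nlinarith
  have h4 : max (1 - ((1 - d) * a / b) ^ 2) 0 ≤ 2 * d + 2 * (Real.log b - Real.log a) :=
    max_le h3 (by linarith)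
  have h5 : max (1 - ((1 - d) * a / b) ^ 2) 0 / (2 * η) ≤
      (2 * d + 2 * (Real.log b - Real.log a)) / (2 * η) :=
    div_le_div_of_nonneg_right h4 (by positivity)
  have h6 : (2 * d + 2 * (Real.log b - Real.log a)) / (2 * η) =
      d / η + (Real.log b - Real.log a) / η := by
    field_simp
  rw [h6] at h5
  linarith

/-- monotonicity of the sequence -/
theorem FI2_mono {N : ℕ} {lam : ℕ → ℝ} (h : ∀ j, j < N → lam j ≤ lam (j + 1)) {i j : ℕ}
    (hij : i ≤ j) (hj : j ≤ N) : lam i ≤ lam j := by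
  induction j, hij using Nat.le_induction with
  | base => exact le_rfl
  | succ j hij ih => exact (ih (by omega)).trans (h j (by omega))

/-- **FI2**: the error terms. -/
theorem FI2 : FI2_stmt := by
  intro ε hε0 hε1
  have hπ := Real.pi_pos
  -- the choice of N
  have hc : 0 < ε ^ 2 / 1024 := by positivity
  have hlo := (Real.isLittleO_log_id_atTop.def hc)
  obtain ⟨x0, hx0⟩ := Filter.eventually_atTop.1 hlo
  obtain ⟨N0, hN0⟩ := exists_nat_ge (max x0 (16 / ε))
  set η := ε / 8 with hη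
  have hη0 : 0 < η := by positivity
  refine ⟨η ^ 2 / 2, N0 + 2, by positivity, by nlinarith, by omega, ?_⟩
  intro R lam hR h0 hmono h1 hN
  set N := N0 + 2 with hNdef
  have hNpos : (0 : ℝ) < N := by
    rw [hNdef]
    positivity
  have hNN0 : (N0 : ℝ) ≤ N := by
    rw [hNdef]
    push_cast
    linarith
  have hNx0 : x0 ≤ 8 * (N : ℝ) := by
    have := le_max_left x0 (16 / ε)
    linarith
  have hNε : 16 / ε ≤ N := by
    have := le_max_right x0 (16 / ε)
    linarith
  have hlogN : Real.log (8 * N) ≤ ε ^ 2 / 128 * N := by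
    have h2 := hx0 (8 * N) hNx0
    rw [Real.norm_eq_abs, Real.norm_eq_abs, id, abs_of_nonneg (by positivity : (0:ℝ) ≤ 8 * N)] at h2
    have h3 := le_abs_self (Real.log (8 * N))
    linarith
  have hlam1 : 0 < lam 1 := lt_of_lt_of_le (by positivity) h1
  have hlampos : ∀ j, 1 ≤ j → j ≤ N → 0 < lam j := fun j hj hjN =>
    lt_of_lt_of_le hlam1 (FI2_mono hmono hj hjN)
  have hlamN : 0 < lam N := hlampos N (by omega) le_rfl
  have hlogq : Real.log (lam N) - Real.log (lam 1) ≤ Real.log (8 * N) := by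
    rw [← Real.log_div hlamN.ne' hlam1.ne']
    refine Real.log_le_log (div_pos hlamN hlam1) ?_
    rw [div_le_iff₀ hlam1]
    have h3 : 8 * (N : ℝ) * (R / (4 * Real.pi * N)) = 2 * R / Real.pi := by
      field_simp
      norm_num
    calc lam N ≤ 2 * R / Real.pi := hN
      _ = 8 * (N : ℝ) * (R / (4 * Real.pi * N)) := h3.symm
      _ ≤ 8 * N * lam 1 := mul_le_mul_of_nonneg_left h1 (by positivity)
  -- the sum
  have hterm : ∀ k ∈ Finset.range (N0 + 1),
      Real.sqrt (1 - ((1 - η ^ 2 / 2) * lam (k + 1) / lam (k + 1 + 1)) ^ 2) ≤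
      η / 2 + η ^ 2 / 2 / η + (Real.log (lam (k + 1 + 1)) - Real.log (lam (k + 1))) / η := by
    intro k hk
    have hk' := Finset.mem_range.1 hk
    exact FI2_term (hlampos (k + 1) (by omega) (by omega)) (hmono (k + 1) (by omega))
      (by positivity) (by nlinarith) hη0
  have hsum : ∑ k ∈ Finset.range N,
      Real.sqrt (1 - ((1 - η ^ 2 / 2) * lam k / lam (k + 1)) ^ 2) ≤
      1 + N * η + Real.log (8 * N) / η := by
    rw [hNdef, Finset.sum_range_succ']
    have h4 : Real.sqrt (1 - ((1 - η ^ 2 / 2) * lam 0 / lam (0 + 1)) ^ 2) = 1 := by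
      rw [h0, mul_zero, zero_div]
      norm_num
    rw [h4]
    have h5 := Finset.sum_le_sum hterm
    rw [Finset.sum_add_distrib, ← Finset.sum_div,
      Finset.sum_range_sub (fun k => Real.log (lam (k + 1))) (N0 + 1), Finset.sum_const,
      Finset.card_range, nsmul_eq_mul] at h5
    have h6 : η / 2 + η ^ 2 / 2 / η = η := by
      field_simp
      norm_num
    rw [h6] at h5
    have h7 : (Real.log (lam (N0 + 1 + 1)) - Real.log (lam (0 + 1))) / η ≤
        Real.log (8 * N) / η := div_le_div_of_nonneg_right hlogq hη0.le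
    have h8 : (((N0 + 1 : ℕ)) : ℝ) * η ≤ N * η := by
      refine mul_le_mul_of_nonneg_right ?_ hη0.le
      rw [hNdef]
      push_cast
      linarith
    rw [← hNdef]
    linarith
  rw [← Finset.mul_sum]
  have h9 : R / N * ∑ k ∈ Finset.range N,
      Real.sqrt (1 - ((1 - η ^ 2 / 2) * lam k / lam (k + 1)) ^ 2) ≤
      R / N * (1 + N * η + Real.log (8 * N) / η) :=
    mul_le_mul_of_nonneg_left hsum (by positivity)
  refine h9.trans ?_
  have h10 : 1 ≤ ε / 16 * N := by
    rw [div_le_iff₀ hε0] at hNε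
    linarith
  have h11 : Real.log (8 * N) / η ≤ ε / 16 * N := by
    rw [div_le_iff₀ hη0, hη]
    calc Real.log (8 * N) ≤ ε ^ 2 / 128 * N := hlogN
      _ = ε / 16 * N * (ε / 8) := by ring
  have h12 : 1 + N * η + Real.log (8 * N) / η ≤ ε / 4 * N := by
    rw [hη] at h11 ⊢
    linarith
  calc R / N * (1 + N * η + Real.log (8 * N) / η) ≤ R / N * (ε / 4 * N) :=
        mul_le_mul_of_nonneg_left h12 (by positivity)
    _ = ε / 4 * R := by
        field_simp

end Pool.Agent.CRO
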