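import Pool.Agent.helper58.CRO.SpecC

/-!
# The level exists (row cro:FIN)
-/

open scoped Manifold ContDiff Topology ENNReal
open MeasureTheory Set

noncomputable section

namespace Pool.Agent.CRO

theorem FIN_mono {N : ℕ} {lam : ℕ → ℝ} (h : ∀ j, j < N → lam j ≤ lam (j + 1)) {i j : ℕ}
    (hij : i ≤ j) (hj : j ≤ N) : lam i ≤ lam j := by
  induction j, hij using Nat.le_induction with
  | base => exact le_rfl
  | succ j hij ih => exact (ih (by omega)).trans (h j (by omega))

/-- **FIN**: the level exists. -/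
theorem FIN (h1 : FI1_stmt) (h2 : FI2_stmt) : FIN_stmt := by
  intro ε hε0 hε1
  have hπ := Real.pi_pos
  obtain ⟨d, N, hd0, hd1, hN2, hdN⟩ := h2 ε hε0 hε1
  refine ⟨d, N, hd0, hd1, hN2, ?_⟩
  intro R lam hR h0 hmono hlam1 hlamN
  have hNpos : (0 : ℝ) < N := by
    have : 0 < N := by omega
    exact_mod_cast this
  set c := Real.pi / 2 * (1 + ε / 2) with hc
  have hc0 : 0 < c := by positivity
  set Q : ℕ → ℝ := fun k => WW N (R / N) d lam k + c * ((1 - d) * lam k) with hQ
  have hlam1p : 0 < lam 1 := lt_of_lt_of_le (by positivity) hlam1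
  have hlampos : ∀ j, 1 ≤ j → j ≤ N → 0 < lam j := fun j hj hjN =>
    lt_of_lt_of_le hlam1p (FIN_mono hmono hj hjN)
  have hlam0 : ∀ j, j ≤ N → 0 ≤ lam j := fun j hjN => by
    rw [← h0]
    exact FIN_mono hmono (Nat.zero_le j) hjN
  have hsum := hdN R lam hR h0 hmono hlam1 (by
    have : (1 - ε) * (2 * R / Real.pi) ≤ 1 * (2 * R / Real.pi) :=
      mul_le_mul_of_nonneg_right (by linarith) (by positivity)
    linarith)
  have hQ0 : Q 0 = R := by
    show WW N (R / N) d lam 0 + c * ((1 - d) * lam 0) = R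
    unfold WW
    rw [h0, mul_zero, mul_zero, add_zero]
    have e : ∀ j ∈ Finset.Ioc 0 N, R / N * Real.sqrt (1 - (0 / lam j) ^ 2) = R / N := by
      intro j _
      rw [zero_div]
      norm_num
    rw [Finset.sum_congr rfl e, Finset.sum_const, Nat.card_Ioc, nsmul_eq_mul, Nat.sub_zero]
    field_simp
  have hQN : Q N < R * (1 - ε / 2) := by
    show WW N (R / N) d lam N + c * ((1 - d) * lam N) < R * (1 - ε / 2)
    have e1 : WW N (R / N) d lam N = 0 := by
      unfold WW
      rw [Finset.Ioc_self, Finset.sum_empty]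
    have e2 : (1 - d) * lam N ≤ 1 * lam N :=
      mul_le_mul_of_nonneg_right (by linarith) (hlam0 N le_rfl)
    have e3 : c * ((1 - d) * lam N) ≤ c * lam N := mul_le_mul_of_nonneg_left (by linarith) hc0.le
    have e4 : c * lam N < c * ((1 - ε) * (2 * R / Real.pi)) := mul_lt_mul_of_pos_left hlamN hc0
    have e5 : c * ((1 - ε) * (2 * R / Real.pi)) = (1 + ε / 2) * (1 - ε) * R := by
      rw [hc]
      field_simp
    rw [e1]
    nlinarith [mul_pos hR hε0, mul_pos (mul_pos hR hε0) hε0]
  by_contra hcon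
  push Not at hcon
  -- the last index with Q ≥ R
  let S : Finset ℕ := (Finset.range (N + 1)).filter fun k => R ≤ Q k
  have hS0 : (0 : ℕ) ∈ S := Finset.mem_filter.2 ⟨Finset.mem_range.2 (by omega), hQ0.ge⟩
  obtain ⟨k3, hk3, hmax⟩ := S.exists_max_image id ⟨0, hS0⟩
  have hk3' := Finset.mem_filter.1 hk3
  have hk3N : k3 ≤ N := by
    have := Finset.mem_range.1 hk3'.1
    omega
  have hlt : ∀ k, k3 < k → k ≤ N → Q k < R := by
    intro k hk hkN
    by_contra h
    push Not at h
    have := hmax k (Finset.mem_filter.2 ⟨Finset.mem_range.2 (by omega), h⟩)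
    simp only [id] at this
    omega
  have hPH : ∀ k, k3 < k → k ≤ N → PH N (R / N) d lam k ≤ c := by
    intro k hk hkN
    rcases hkN.lt_or_eq with h | h
    · exact hcon k (by omega) h (hlt k hk hkN)
    · rw [h]
      unfold PH
      rw [Finset.Ioc_self, Finset.sum_empty]
      exact hc0.le
  have hstep : ∀ k, k3 ≤ k → k < N → Q k ≤ Q (k + 1) +
      R / N * Real.sqrt (1 - ((1 - d) * lam k / lam (k + 1)) ^ 2) := by
    intro k hk hkN
    have e1 := h1 N k (R / N) d lam (by positivity) hd0 hd1 hkN (hlam0 k hkN.le) (hmono k hkN)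
      (fun j hj hjN => ⟨hlampos j (by omega) hjN, FIN_mono hmono hj hjN⟩)
    have e2 := hPH (k + 1) (by omega) (by omega)
    have e3 : 0 ≤ (1 - d) * (lam (k + 1) - lam k) :=
      mul_nonneg (by linarith) (by linarith [hmono k hkN])
    have e4 := mul_le_mul_of_nonneg_left e2 e3
    show WW N (R / N) d lam k + c * ((1 - d) * lam k) ≤
      WW N (R / N) d lam (k + 1) + c * ((1 - d) * lam (k + 1)) +
        R / N * Real.sqrt (1 - ((1 - d) * lam k / lam (k + 1)) ^ 2)
    linarith
  have hall : ∀ j, k3 ≤ j → j ≤ N → Q k3 ≤ Q j + ∑ k ∈ Finset.Ico k3 j,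
      R / N * Real.sqrt (1 - ((1 - d) * lam k / lam (k + 1)) ^ 2) := by
    intro j hj
    induction j, hj using Nat.le_induction with
    | base =>
      intro _
      rw [Finset.Ico_self, Finset.sum_empty, add_zero]
    | succ j hj ih =>
      intro hjN
      rw [Finset.sum_Ico_succ_top hj]
      have e1 := ih (by omega)
      have e2 := hstep j hj (by omega)
      linarith
  have hfin := hall N hk3N le_rfl
  have hsub : ∑ k ∈ Finset.Ico k3 N,
      R / N * Real.sqrt (1 - ((1 - d) * lam k / lam (k + 1)) ^ 2) ≤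
      ∑ k ∈ Finset.range N, R / N * Real.sqrt (1 - ((1 - d) * lam k / lam (k + 1)) ^ 2) := by
    refine Finset.sum_le_sum_of_subset_of_nonneg ?_ fun k _ _ =>
      mul_nonneg (by positivity) (Real.sqrt_nonneg _)
    intro k hk
    rw [Finset.mem_Ico] at hk
    exact Finset.mem_range.2 hk.2
  have hR3 := hk3'.2
  nlinarith [mul_pos hR hε0]

end Pool.Agent.CRO
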