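import Pool.Agent.helper58.CRO.SpecA

/-!
# Existence of the Hamiltonian flow (row cro:HFL)
-/

open scoped Manifold ContDiff Topology ENNReal
open MeasureTheory Set

noncomputable section

namespace Pool.Agent.CRO

/-- **HFL**: existence of the Hamiltonian flow. -/
theorem HFL (h1 : CFL_stmt) (h2 : HVC_stmt) (h3 : SMP_stmt) (h4 : DT1_stmt) (h5 : MPR_stmt) :
    HFL_stmt := by
  intro n H hH hsupp
  obtain ⟨hv, hvs⟩ := h2 n H hH hsupp
  obtain ⟨Φ, hΦ⟩ := h1 (PS n) (hvf H) (contDiff_infty.1 hv 2) hvs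
  have hs := h3 n H Φ hH hΦ
  exact ⟨Φ, ⟨hΦ, hs, h5 n (hvf H) Φ hΦ fun t z => h4 n _ (hs t z)⟩⟩

end Pool.Agent.CRO
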