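import Pool.Agent.helper58.CRO.SpecF

/-!
# MP_5bf3c3_gt, row cro:INQ: the integral inequality from the level inequality
-/

open scoped Manifold ContDiff Topology ENNReal
open MeasureTheory Set Bundle Filter

noncomputable section

namespace Pool.Agent.CRO

theorem INQ (h1 : GFL_stmt) (h2 : SPD_stmt) (h3 : VOL_stmt) (h4 : VVP_stmt) (h5 : VVC_stmt)
    (h6 : LEV_stmt) : INQ_stmt := by
  intro n r0 L 𝒢 hn hexp c a hc ha hca haL
  have hr0 : 0 < r0 := by linarith
  set k : ℝ := min ((L - 2 * a) / 2) ((r0 - c - a) / 2) with hk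
  have hk0 : 0 < k := lt_min (by linarith) (by linarith)
  have hk1 : 2 * a + k < L := by
    have := min_le_left ((L - 2 * a) / 2) ((r0 - c - a) / 2)
    rw [← hk] at this
    linarith
  have hk2 : c + a + k < r0 := by
    have := min_le_right ((L - 2 * a) / 2) ((r0 - c - a) / 2)
    rw [← hk] at this
    linarith
  obtain ⟨H, Φ, hΦ⟩ := h1 n r0 (c + a + k) 𝒢 (by linarith) hk2
  obtain ⟨hAm, hAv⟩ := h3 n r0 𝒢 c hn (by linarith)
  obtain ⟨hVpos, -, -⟩ := h4 n r0 𝒢 hn hr0
  have hVc := h5 n r0 𝒢 hn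
  have hn0 : (n : ℝ) ≠ 0 := by
    have : n ≠ 0 := by omega
    exact_mod_cast this
  -- the weight
  have hmem : ∀ u : ℝ, c + min |u| a ∈ Ioo 0 r0 := by
    intro u
    have h1' : 0 ≤ min |u| a := le_min (abs_nonneg u) ha.le
    have h2' : min |u| a ≤ a := min_le_right _ _
    exact ⟨by linarith, by linarith⟩
  set w : ℝ → ℝ := fun u => (VV 𝒢 (c + min |u| a)) ^ (-(2 : ℝ) / n) with hw
  have hVp : ∀ u : ℝ, 0 < VV 𝒢 (c + min |u| a) := fun u => hVpos _ (hmem u).1 (hmem u).2
  have hwc : Continuous w := by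
    have h1' : Continuous fun u : ℝ => VV 𝒢 (c + min |u| a) := by
      refine hVc.comp_continuous (f := fun u : ℝ => c + min |u| a) ?_ hmem
      fun_prop
    exact h1'.rpow_const fun u => Or.inl (hVp u).ne'
  have hwp : ∀ u, 0 < w u := fun u => Real.rpow_pos_of_pos (hVp u) _
  have hwe : ∀ u, w (-u) = w u := by
    intro u
    simp only [hw, abs_neg]
  have hkey := h6 n r0 (c + a + k) L 𝒢 H Φ hn hΦ hexp (ZZ 𝒢 c) a k 1 w (fun u => c + |u|)
    hAm ha hk0 hk1 ?_ ?_ hwc hwp hwe ?_
  · -- conclusion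
    rw [hAv] at hkey
    have hVcp : 0 < VV 𝒢 c := hVpos c hc (by linarith)
    have hkap : 0 < kap n := by
      unfold kap
      exact ENNReal.toReal_pos (Metric.measure_ball_pos volume (0 : En n) one_pos).ne'
        measure_ball_lt_top.ne
    have hy : 0 < kap n * VV 𝒢 c := mul_pos hkap hVcp
    -- the integral of the weight
    have hI0 : ∫ r in (0 : ℝ)..a, w r = ∫ ρ in c..(c + a), (VV 𝒢 ρ) ^ (-(2 : ℝ) / n) := by
      have h1' : ∫ r in (0 : ℝ)..a, w r
          = ∫ r in (0 : ℝ)..a, (VV 𝒢 (c + r)) ^ (-(2 : ℝ) / n) := by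
        refine intervalIntegral.integral_congr fun r hr => ?_
        rw [uIcc_of_le ha.le] at hr
        simp only [hw]
        rw [abs_of_nonneg hr.1, min_eq_left hr.2]
      rw [h1']
      have h2' := intervalIntegral.integral_comp_add_left (a := 0) (b := a)
        (fun ρ => (VV 𝒢 ρ) ^ (-(2 : ℝ) / n)) c
      rw [add_zero] at h2'
      exact h2'
    have hI1 : ∫ r in (-a)..0, w r = ∫ r in (0 : ℝ)..a, w r := by
      have h1' := intervalIntegral.integral_comp_neg (a := -a) (b := 0) w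
      rw [neg_zero, neg_neg] at h1'
      rw [← h1']
      exact intervalIntegral.integral_congr fun r _ => (hwe r).symm
    have hI2 : ∫ r in (-a)..a, w r = 2 * ∫ ρ in c..(c + a), (VV 𝒢 ρ) ^ (-(2 : ℝ) / n) := by
      rw [← intervalIntegral.integral_add_adjacent_intervals (hwc.intervalIntegrable (-a) 0)
        (hwc.intervalIntegrable 0 a), hI1, hI0]
      ring
    rw [hI2] at hkey
    set I : ℝ := ∫ ρ in c..(c + a), (VV 𝒢 ρ) ^ (-(2 : ℝ) / n) with hI
    have hInn : 0 ≤ I := by
      rw [← hI0]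
      exact intervalIntegral.integral_nonneg ha.le fun u _ => (hwp u).le
    have hπ := Real.pi_pos
    have hx : 0 ≤ 2 * I / Real.pi := by positivity
    rw [← ENNReal.ofReal_mul (by positivity), ENNReal.ofReal_le_ofReal_iff (by norm_num),
      one_pow] at hkey
    have h7 : (2 * I / Real.pi) ^ n ≤ (kap n * VV 𝒢 c)⁻¹ := by
      rw [← one_div, le_div_iff₀ hy]
      exact hkey
    have h8 : 2 * I / Real.pi ≤ (kap n * VV 𝒢 c) ^ (-(1 : ℝ) / n) := by
      have h9 : 2 * I / Real.pi = ((2 * I / Real.pi) ^ n) ^ ((n : ℝ)⁻¹) :=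
        (Real.pow_rpow_inv_natCast hx (by omega)).symm
      rw [h9]
      have h10 := Real.rpow_le_rpow (by positivity) h7 (inv_nonneg.mpr (Nat.cast_nonneg n))
      refine h10.trans (le_of_eq ?_)
      rw [Real.inv_rpow hy.le, ← Real.rpow_neg hy.le]
      congr 1
      rw [neg_div, one_div]
    rw [div_le_iff₀ hπ] at h8
    linarith
  · intro z hz
    refine ⟨hz.2, fun u hu => ?_⟩
    have habs : |u| ≤ a + k := by
      rw [abs_le]
      exact ⟨by linarith [hu.1], by linarith [hu.2]⟩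
    have := (h2 n r0 (c + a + k) 𝒢 H Φ hΦ z c u hz (by linarith)).1
    linarith
  · intro u hu
    have habs : |u| ≤ a := abs_le.mpr ⟨by linarith [hu.1], hu.2⟩
    refine ⟨by linarith, fun z hz => ?_⟩
    exact (h2 n r0 (c + a + k) 𝒢 H Φ hΦ z c u hz (by linarith)).1
  · intro u hu
    have habs : |u| ≤ a := abs_le.mpr ⟨by linarith [hu.1], hu.2⟩
    have hmin : min |u| a = |u| := min_eq_left habs
    have hp := hVp u
    simp only [hw]
    rw [hmin] at hp ⊢
    refine le_of_eq ?_
    rw [Real.sqrt_eq_rpow, ← Real.rpow_mul hp.le, ← Real.rpow_natCast, ← Real.rpow_mul hp.le]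
    have he : -(2 : ℝ) / n * (1 / 2) * n = -1 := by
      field_simp
    rw [he, Real.rpow_neg_one]
    exact inv_mul_cancel₀ hp.ne'

end Pool.Agent.CRO
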