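import Pool.Agent.helper58.CRO.SpecA

/-!
# The weighted inequality (row cro:KZW)
-/

open scoped Manifold ContDiff Topology ENNReal
open MeasureTheory Set

noncomputable section

namespace Pool.Agent.CRO

theorem KZW_sub {m : ℝ → ℝ} (hm : Continuous m) (a b c : ℝ) :
    ∫ s in a..b, m s = (∫ s in c..b, m s) - ∫ s in c..a, m s :=
  (intervalIntegral.integral_interval_sub_left (hm.intervalIntegrable _ _)
    (hm.intervalIntegrable _ _)).symm

theorem KZW_prim {m : ℝ → ℝ} (hm : Continuous m) (c t : ℝ) :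
    HasDerivAt (fun t => ∫ s in c..t, m s) (m t) t :=
  intervalIntegral.integral_hasDerivAt_right (hm.intervalIntegrable _ _)
    (hm.stronglyMeasurableAtFilter _ _) hm.continuousAt

/-- the quotient -/
def KZW_Q (m : ℝ → ℝ) (L t : ℝ) : ℝ := (∫ s in t..(t + L), m s) / Real.sqrt (m t * m (t + L))

theorem KZW_Q_cont {m : ℝ → ℝ} (hm : Continuous m) (hpos : ∀ t, 0 < m t) (L : ℝ) :
    Continuous (KZW_Q m L) := by
  have h1 : Continuous fun t => ∫ s in (0 : ℝ)..t, m s :=
    continuous_iff_continuousAt.2 fun t => (KZW_prim hm 0 t).continuousAt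
  have h2 : Continuous fun t => ∫ s in t..(t + L), m s := by
    have e : (fun t => ∫ s in t..(t + L), m s) =
        fun t => (∫ s in (0 : ℝ)..(t + L), m s) - ∫ s in (0 : ℝ)..t, m s := by
      funext t
      exact KZW_sub hm t (t + L) 0
    rw [e]
    exact (h1.comp (continuous_id.add continuous_const)).sub h1
  have h3 : Continuous fun t => Real.sqrt (m t * m (t + L)) :=
    Real.continuous_sqrt.comp (hm.mul (hm.comp (continuous_id.add continuous_const)))
  have h4 : ∀ t, 0 < Real.sqrt (m t * m (t + L)) := fun t =>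
    Real.sqrt_pos.2 (mul_pos (hpos _) (hpos _))
  exact h2.div h3 fun t => (h4 t).ne'

theorem KZW_Q_pos {m : ℝ → ℝ} (hm : Continuous m) (hpos : ∀ t, 0 < m t) {L : ℝ} (hL : 0 < L)
    (t : ℝ) : 0 < KZW_Q m L t :=
  div_pos (intervalIntegral.intervalIntegral_pos_of_pos (hm.intervalIntegrable _ _) hpos
    (by linarith)) (Real.sqrt_pos.2 (mul_pos (hpos _) (hpos _)))

theorem KZW_tangent {x c : ℝ} (hx : 0 < x) (hc : 0 < c) (n : ℕ) :
    c ^ n * (1 + n * (Real.log x - Real.log c)) ≤ x ^ n := by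
  have h1 : (x / c) ^ n = Real.exp (n * (Real.log x - Real.log c)) := by
    rw [← Real.log_div hx.ne' hc.ne', Real.exp_nat_mul, Real.exp_log (div_pos hx hc)]
  have h2 := Real.add_one_le_exp (n * (Real.log x - Real.log c))
  rw [← h1] at h2
  have h3 : x ^ n = c ^ n * (x / c) ^ n := by
    rw [← mul_pow, mul_div_cancel₀ _ hc.ne']
  rw [h3]
  exact mul_le_mul_of_nonneg_left (by linarith) (pow_pos hc n).le

theorem KZW_jensen (h1 : LGC_stmt) (n : ℕ) (T : ℝ) (m : ℝ → ℝ) (hT : 0 < T) (hm : Continuous m)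
    (hpos : ∀ t, 0 < m t) : T / 2 * (T / Real.pi) ^ n ≤
      ∫ t in (0 : ℝ)..(T / 2), KZW_Q m (T / 2) t ^ n := by
  have hL : 0 < T / 2 := by positivity
  have hc : 0 < T / Real.pi := div_pos hT Real.pi_pos
  have hQc := KZW_Q_cont hm hpos (T / 2)
  have hQp := KZW_Q_pos hm hpos hL
  have hlc : Continuous fun t => Real.log (KZW_Q m (T / 2) t) := hQc.log fun t => (hQp t).ne'
  have h2 := h1 T m hT hm hpos
  have h3 : ∫ t in (0 : ℝ)..(T / 2), (T / Real.pi) ^ n * (1 + n * (Real.log (KZW_Q m (T / 2) t) -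
      Real.log (T / Real.pi))) ≤ ∫ t in (0 : ℝ)..(T / 2), KZW_Q m (T / 2) t ^ n := by
    refine intervalIntegral.integral_mono_on hL.le ?_ ((hQc.pow n).intervalIntegrable _ _)
      fun t _ => KZW_tangent (hQp t) hc n
    exact (continuous_const.mul (continuous_const.add (continuous_const.mul
      (hlc.sub continuous_const)))).intervalIntegrable _ _
  refine le_trans ?_ h3
  have c1 : IntervalIntegrable (fun _ : ℝ => (1 : ℝ)) volume 0 (T / 2) :=
    continuous_const.intervalIntegrable _ _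
  have c2 : IntervalIntegrable (fun t => Real.log (KZW_Q m (T / 2) t)) volume 0 (T / 2) :=
    hlc.intervalIntegrable _ _
  have c3 : IntervalIntegrable (fun _ : ℝ => Real.log (T / Real.pi)) volume 0 (T / 2) :=
    continuous_const.intervalIntegrable _ _
  rw [intervalIntegral.integral_const_mul, intervalIntegral.integral_add c1
    ((c2.sub c3).const_mul _), intervalIntegral.integral_const_mul,
    intervalIntegral.integral_sub c2 c3, intervalIntegral.integral_const,
    intervalIntegral.integral_const, smul_eq_mul, smul_eq_mul, mul_one, sub_zero]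
  have h4 : 0 ≤ (∫ t in (0 : ℝ)..(T / 2), Real.log (KZW_Q m (T / 2) t)) -
      T / 2 * Real.log (T / Real.pi) := by
    have : (∫ t in (0 : ℝ)..(T / 2), Real.log (KZW_Q m (T / 2) t)) =
      ∫ t in (0 : ℝ)..(T / 2),
        Real.log ((∫ s in t..(t + T / 2), m s) / Real.sqrt (m t * m (t + T / 2))) := rfl
    rw [this]
    linarith
  have h5 : 0 ≤ (T / Real.pi) ^ n * (n * ((∫ t in (0 : ℝ)..(T / 2),
      Real.log (KZW_Q m (T / 2) t)) - T / 2 * Real.log (T / Real.pi))) :=
    mul_nonneg (pow_pos hc n).le (mul_nonneg (Nat.cast_nonneg n) h4)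
  linarith

/-- **KZW**: the weighted inequality. -/
theorem KZW (h1 : LGC_stmt) : KZW_stmt := by
  intro n a T w σ ψ ha hw hw0 hσ hσ1 hT hT2 hψ hψ0
  -- the clamp
  let cl : ℝ → ℝ := fun u => max (-a) (min u a)
  have hclc : Continuous cl := continuous_const.max (continuous_id.min continuous_const)
  have hclm : ∀ u, cl u ∈ Icc (-a) a := fun u =>
    ⟨le_max_left _ _, max_le (by linarith) (min_le_right _ _)⟩
  have hcle : ∀ u ∈ Icc (-a) a, cl u = u := by
    intro u hu
    show max (-a) (min u a) = u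
    rw [min_eq_left hu.2, max_eq_right hu.1]
  let wt : ℝ → ℝ := fun u => w (cl u)
  have hwtc : Continuous wt := hw.comp hclc
  have hwt0 : ∀ u, 0 < wt u := fun u => hw0 _
  have hwte : ∀ u ∈ Icc (-a) a, wt u = w u := fun u hu => by
    show w (cl u) = w u
    rw [hcle u hu]
  let ψt : ℝ → ℝ := fun u => ψ (cl u)
  have hψtc : Continuous ψt := hψ.comp_continuous hclc hclm
  have hψt0 : ∀ u, 0 < ψt u := fun u => hψ0 _ (hclm u)
  have hψte : ∀ u ∈ Icc (-a) a, ψt u = ψ u := fun u hu => by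
    show ψ (cl u) = ψ u
    rw [hcle u hu]
  let τ : ℝ → ℝ := fun u => ∫ r in (-a)..u, wt r
  have hτd : ∀ u, HasDerivAt τ (wt u) u := KZW_prim hwtc (-a)
  have hτc : Continuous τ := continuous_iff_continuousAt.2 fun t => (hτd t).continuousAt
  have hτsub : ∀ u v, ∫ r in u..v, wt r = τ v - τ u := fun u v => KZW_sub hwtc u v (-a)
  have hτmono : StrictMono τ := by
    intro u v huv
    have e1 := hτsub u v
    have e2 : 0 < ∫ r in u..v, wt r :=
      intervalIntegral.intervalIntegral_pos_of_pos (hwtc.intervalIntegrable _ _) hwt0 huv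
    linarith
  -- the lower bound of the weight
  obtain ⟨u0, hu0, hmin⟩ := isCompact_Icc.exists_isMinOn
    (nonempty_Icc.2 (show -a ≤ a by linarith)) hw.continuousOn
  set δ := w u0 with hδ
  have hδ0 : 0 < δ := hw0 u0
  have hδw : ∀ u, δ ≤ wt u := fun u => hmin (hclm u)
  have hlow : ∀ u v, u ≤ v → δ * (v - u) ≤ τ v - τ u := by
    intro u v huv
    rw [← hτsub]
    have e : ∫ _r in u..v, δ ≤ ∫ r in u..v, wt r :=
      intervalIntegral.integral_mono_on huv (continuous_const.intervalIntegrable _ _)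
        (hwtc.intervalIntegrable _ _) fun r _ => hδw r
    rw [intervalIntegral.integral_const, smul_eq_mul] at e
    linarith
  have hτa : τ (-a) = 0 := intervalIntegral.integral_same
  have hsurj : Function.Surjective τ := by
    refine hτc.surjective ?_ ?_
    · refine Filter.tendsto_atTop_mono' _ (f₁ := fun u => δ * (u + a)) ?_ ?_
      · filter_upwards [Filter.eventually_ge_atTop (-a)] with u hu
        have := hlow (-a) u hu
        rw [hτa] at this
        linarith
      · exact (Filter.tendsto_atTop_add_const_right _ a Filter.tendsto_id).const_mul_atTop hδ0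
    · refine Filter.tendsto_atBot_mono' _ (f₂ := τ) (f₁ := fun u => δ * (u + a)) ?_ ?_
      · filter_upwards [Filter.eventually_le_atBot (-a)] with u hu
        have := hlow u (-a) hu
        rw [hτa] at this
        linarith
      · exact (Filter.tendsto_atBot_add_const_right _ a Filter.tendsto_id).const_mul_atBot hδ0
  let e : ℝ ≃o ℝ := StrictMono.orderIsoOfSurjective τ hτmono hsurj
  let U : ℝ → ℝ := fun t => e.symm t
  have hUc : Continuous U := e.symm.continuous
  have hUτ : ∀ u, U (τ u) = u := fun u => e.symm_apply_apply u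
  -- the function m
  let m : ℝ → ℝ := fun t => (wt (U t) * ψt (U t) ^ 2)⁻¹
  have hmc : Continuous m := by
    refine Continuous.inv₀ ((hwtc.comp hUc).mul ((hψtc.comp hUc).pow 2)) fun t => ?_
    exact (mul_pos (hwt0 _) (pow_pos (hψt0 _) 2)).ne'
  have hm0 : ∀ t, 0 < m t := fun t => inv_pos.2 (mul_pos (hwt0 _) (pow_pos (hψt0 _) 2))
  have hmτ : ∀ u, m (τ u) = (wt u * ψt u ^ 2)⁻¹ := fun u => by
    show (wt (U (τ u)) * ψt (U (τ u)) ^ 2)⁻¹ = _
    rw [hUτ]
  have hIcc : ∀ u ∈ Icc (-a) (0 : ℝ), u ∈ Icc (-a) a := fun u hu => ⟨hu.1, hu.2.trans ha.le⟩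
  have hτe : ∀ u ∈ Icc (-a) a, τ u = ∫ r in (-a)..u, w r := by
    intro u hu
    refine intervalIntegral.integral_congr fun r hr => ?_
    rw [uIcc_of_le hu.1] at hr
    exact hwte r ⟨hr.1, hr.2.trans hu.2⟩
  have hτ0 : τ 0 = T / 2 := by
    rw [hτe 0 ⟨by linarith, ha.le⟩, hT2]
  have hT0 : 0 < T := by
    have := hτmono (show -a < 0 by linarith)
    rw [hτa, hτ0] at this
    linarith
  have hτσ : ∀ u ∈ Icc (-a) (0 : ℝ), τ u + T / 2 = τ (σ u) := by
    intro u hu
    obtain ⟨hs1, -, hs3⟩ := hσ1 u hu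
    have e1 : ∫ r in (0 : ℝ)..(σ u), w r = τ (σ u) - τ 0 := by
      rw [← hτsub]
      refine intervalIntegral.integral_congr fun r hr => ?_
      rw [uIcc_of_le hs1.1] at hr
      exact (hwte r ⟨by linarith [hr.1], hr.2.trans hs1.2⟩).symm
    rw [hτe u (hIcc u hu), hs3, e1, hτ0]
    ring
  have hjen := KZW_jensen h1 n T m hT0 hmc hm0
  have hsubst : ∫ u in (-a)..(0 : ℝ), KZW_Q m (T / 2) (τ u) ^ n * wt u =
      ∫ t in (0 : ℝ)..(T / 2), KZW_Q m (T / 2) t ^ n := by
    have e1 := intervalIntegral.integral_comp_mul_deriv (a := -a) (b := 0) (f := τ) (f' := wt)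
      (g := fun t => KZW_Q m (T / 2) t ^ n) (fun u _ => hτd u) hwtc.continuousOn
      ((KZW_Q_cont hmc hm0 (T / 2)).pow n)
    rw [hτa, hτ0] at e1
    exact e1
  rw [← hsubst] at hjen
  refine hjen.trans (le_of_eq ?_)
  refine intervalIntegral.integral_congr fun u hu => ?_
  rw [uIcc_of_le (by linarith)] at hu
  obtain ⟨hs1, hs2, -⟩ := hσ1 u hu
  have hua := hIcc u hu
  have hsa : σ u ∈ Icc (-a) a := ⟨by linarith [hs1.1], hs1.2⟩
  have hint : ∫ s in (τ u)..(τ (σ u)), m s = ∫ r in u..(σ u), (ψ r ^ 2)⁻¹ := by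
    have e1 := intervalIntegral.integral_comp_mul_deriv (a := u) (b := σ u) (f := τ) (f' := wt)
      (g := m) (fun u _ => hτd u) hwtc.continuousOn hmc
    rw [← e1]
    refine intervalIntegral.integral_congr fun r hr => ?_
    rw [uIcc_of_le hs2.le] at hr
    have hra : r ∈ Icc (-a) a := ⟨hua.1.trans hr.1, hr.2.trans hsa.2⟩
    show m (τ r) * wt r = (ψ r ^ 2)⁻¹
    rw [hmτ, hψte r hra, mul_inv, mul_comm, ← mul_assoc, mul_inv_cancel₀ (hwt0 r).ne', one_mul]
  show KZW_Q m (T / 2) (τ u) ^ n * wt u = w u * (ψ u * ψ (σ u) * (∫ r in u..(σ u), (ψ r ^ 2)⁻¹) *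
    Real.sqrt (w u * w (σ u))) ^ n
  have hQ : KZW_Q m (T / 2) (τ u) = ψ u * ψ (σ u) * (∫ r in u..(σ u), (ψ r ^ 2)⁻¹) *
      Real.sqrt (w u * w (σ u)) := by
    unfold KZW_Q
    rw [hτσ u hu, hint, hmτ, hmτ, hwte u hua, hwte (σ u) hsa, hψte u hua, hψte (σ u) hsa]
    have e2 : (w u * ψ u ^ 2)⁻¹ * (w (σ u) * ψ (σ u) ^ 2)⁻¹ =
        (Real.sqrt (w u * w (σ u)) * (ψ u * ψ (σ u)))⁻¹ ^ 2 := by
      rw [inv_pow, mul_pow (Real.sqrt _), Real.sq_sqrt (mul_pos (hw0 _) (hw0 _)).le, ← mul_inv]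
      congr 1
      ring
    have hpp : 0 < Real.sqrt (w u * w (σ u)) * (ψ u * ψ (σ u)) :=
      mul_pos (Real.sqrt_pos.2 (mul_pos (hw0 _) (hw0 _))) (mul_pos (hψ0 u hua) (hψ0 _ hsa))
    rw [e2, Real.sqrt_sq (inv_pos.2 hpp).le, div_inv_eq_mul]
    ring
  rw [hQ, hwte u hua, mul_comm]

end Pool.Agent.CRO
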