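import Pool.Agent.helper58.CRO.SpecA

/-!
# The log inequality (row cro:LGC)
-/

open scoped Manifold ContDiff Topology ENNReal
open MeasureTheory Set

noncomputable section

namespace Pool.Agent.CRO

/-- the integral over a segment is the difference of the values of the primitive -/
theorem LGC_sub {m : ℝ → ℝ} (hm : Continuous m) (a b : ℝ) :
    ∫ s in a..b, m s = (∫ s in (0 : ℝ)..b, m s) - ∫ s in (0 : ℝ)..a, m s :=
  (intervalIntegral.integral_interval_sub_left (hm.intervalIntegrable _ _)
    (hm.intervalIntegrable _ _)).symm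

theorem LGC_prim {m : ℝ → ℝ} (hm : Continuous m) (t : ℝ) :
    HasDerivAt (fun t => ∫ s in (0 : ℝ)..t, m s) (m t) t :=
  intervalIntegral.integral_hasDerivAt_right (hm.intervalIntegrable _ _)
    (hm.stronglyMeasurableAtFilter _ _) hm.continuousAt

theorem LGC_cont {m : ℝ → ℝ} (hm : Continuous m) (hpos : ∀ t, 0 < m t) {L : ℝ} (hL : 0 < L) :
    Continuous fun t => Real.log ((∫ s in t..(t + L), m s) / Real.sqrt (m t * m (t + L))) := by
  have h1 : Continuous fun t => ∫ s in (0 : ℝ)..t, m s :=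
    continuous_iff_continuousAt.2 fun t => (LGC_prim hm t).continuousAt
  have h2 : Continuous fun t => ∫ s in t..(t + L), m s := by
    have e : (fun t => ∫ s in t..(t + L), m s) =
        fun t => (∫ s in (0 : ℝ)..(t + L), m s) - ∫ s in (0 : ℝ)..t, m s := by
      funext t
      exact LGC_sub hm t (t + L)
    rw [e]
    exact (h1.comp (continuous_id.add continuous_const)).sub h1
  have h3 : Continuous fun t => Real.sqrt (m t * m (t + L)) :=
    Real.continuous_sqrt.comp (hm.mul (hm.comp (continuous_id.add continuous_const)))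
  have h4 : ∀ t, 0 < Real.sqrt (m t * m (t + L)) := fun t =>
    Real.sqrt_pos.2 (mul_pos (hpos _) (hpos _))
  have h5 : ∀ t, 0 < ∫ s in t..(t + L), m s := fun t =>
    intervalIntegral.intervalIntegral_pos_of_pos (hm.intervalIntegrable _ _) hpos (by linarith)
  exact (h2.div h3 fun t => (h4 t).ne').log fun t => (div_pos (h5 t) (h4 t)).ne'

/-- the logarithm of the quotient in the angular variables -/
theorem LGC_log {y₁ y₂ m₁ m₂ : ℝ} (hy : y₁ < y₂) (h1 : 0 < m₁) (h2 : 0 < m₂) :
    Real.log ((y₂ - y₁) / Real.sqrt (m₁ * m₂)) =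
      Real.log (Real.cos (Real.arctan y₂ - Real.arctan y₁ - Real.pi / 2)) -
        (1 / 2) * Real.log ((1 / (1 + y₁ ^ 2) * m₁) * (1 / (1 + y₂ ^ 2) * m₂)) := by
  have hs1 : 0 < 1 + y₁ ^ 2 := by positivity
  have hs2 : 0 < 1 + y₂ ^ 2 := by positivity
  have hr1 : 0 < Real.sqrt (1 + y₁ ^ 2) := Real.sqrt_pos.2 hs1
  have hr2 : 0 < Real.sqrt (1 + y₂ ^ 2) := Real.sqrt_pos.2 hs2
  have hd : 0 < y₂ - y₁ := by linarith
  have hl : ∀ x : ℝ, Real.log (1 / x) = -Real.log x := fun x => by rw [one_div, Real.log_inv]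
  have e1 : Real.cos (Real.arctan y₂ - Real.arctan y₁ - Real.pi / 2) =
      (y₂ - y₁) / (Real.sqrt (1 + y₁ ^ 2) * Real.sqrt (1 + y₂ ^ 2)) := by
    rw [Real.cos_sub_pi_div_two, Real.sin_sub, Real.sin_arctan, Real.cos_arctan, Real.sin_arctan,
      Real.cos_arctan]
    field_simp
  rw [e1, Real.log_div hd.ne' (by positivity), Real.log_div hd.ne' (by positivity),
    Real.log_mul hr1.ne' hr2.ne', Real.log_sqrt hs1.le, Real.log_sqrt hs2.le,
    Real.log_sqrt (by positivity), Real.log_mul h1.ne' h2.ne', Real.log_mul (by positivity)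
    (by positivity), Real.log_mul (by positivity) h1.ne', Real.log_mul (by positivity) h2.ne',
    hl, hl]
  ring

/-- the case of the half period `π / 2` -/
theorem LGC_core (h1 : LGF_stmt) (h2 : LGV_stmt) {m : ℝ → ℝ} (hm : Continuous m)
    (hpos : ∀ t, 0 < m t) :
    0 ≤ ∫ t in (0 : ℝ)..(Real.pi / 2),
      Real.log ((∫ s in t..(t + Real.pi / 2), m s) / Real.sqrt (m t * m (t + Real.pi / 2))) := by
  have hπ := Real.pi_pos
  set L := Real.pi / 2 with hL
  have hL0 : 0 < L := by positivity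
  set y : ℝ → ℝ := fun t => ∫ s in (0 : ℝ)..t, m s with hy
  have hyd : ∀ t, HasDerivAt y (m t) t := LGC_prim hm
  have hyc : Continuous y := continuous_iff_continuousAt.2 fun t => (hyd t).continuousAt
  have hymono : ∀ s t, s < t → y s < y t := by
    intro s t hst
    have e1 := LGC_sub hm s t
    have e2 : 0 < ∫ x in s..t, m x :=
      intervalIntegral.intervalIntegral_pos_of_pos (hm.intervalIntegrable _ _) hpos hst
    rw [e1] at e2
    show ∫ x in (0 : ℝ)..s, m x < ∫ x in (0 : ℝ)..t, m x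
    linarith
  set p : ℝ → ℝ := fun t => 1 / (1 + y t ^ 2) * m t with hp
  have hpc : Continuous p := by
    refine Continuous.mul ?_ hm
    exact continuous_const.div (continuous_const.add (hyc.pow 2)) fun t => by positivity
  have hppos : ∀ t, 0 < p t := fun t => mul_pos (by positivity) (hpos t)
  set θ : ℝ → ℝ := fun t => Real.arctan (y t) with hθ
  have hθd : ∀ t, HasDerivAt θ (p t) t := fun t => (hyd t).arctan
  set ζ : ℝ → ℝ := fun s => θ (s + L) - θ s - L with hζ
  set ζ' : ℝ → ℝ := fun s => p (s + L) - p s with hζ'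
  have hθd' : ∀ s, HasDerivAt (fun s => θ (s + L)) (p (s + L)) s := fun s =>
    (hθd (s + L)).comp_add_const s L
  have hζd : ∀ s, HasDerivAt ζ (ζ' s) s := fun s => ((hθd' s).sub (hθd s)).sub_const L
  have hζc : Continuous ζ := continuous_iff_continuousAt.2 fun s => (hζd s).continuousAt
  have hpc' : Continuous fun s => p (s + L) := hpc.comp (continuous_id.add continuous_const)
  have hζ'c : Continuous ζ' := hpc'.sub hpc
  have hζlt : ∀ s, |ζ s| < Real.pi / 2 := by
    intro s
    have a1 := Real.arctan_lt_pi_div_two (y (s + L))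
    have a2 := Real.neg_pi_div_two_lt_arctan (y s)
    have a3 := Real.arctan_strictMono (hymono s (s + L) (by linarith))
    rw [abs_lt]
    constructor
    · show -(Real.pi / 2) < Real.arctan (y (s + L)) - Real.arctan (y s) - L
      linarith
    · show Real.arctan (y (s + L)) - Real.arctan (y s) - L < Real.pi / 2
      linarith
  have hcosζ : ∀ s, 0 < Real.cos (ζ s) := fun s => Real.cos_pos_of_mem_Ioo (abs_lt.1 (hζlt s))
  obtain ⟨s0, hs0, hmax⟩ := isCompact_Icc.exists_isMaxOn (nonempty_Icc.2 hL0.le)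
    (hζc.abs.continuousOn : ContinuousOn (fun s => |ζ s|) (Icc 0 L))
  set Z := |ζ s0| with hZ
  have hZ0 : 0 ≤ Z := abs_nonneg _
  have hZ1 : Z < Real.pi / 2 := hζlt s0
  have hle : ∀ s ∈ Icc 0 L, |ζ s| ≤ Z := fun s hs => hmax hs
  have hcosZ : 0 < Real.cos Z := Real.cos_pos_of_mem_Ioo ⟨by linarith, hZ1⟩
  set α := 1 / Real.cos Z with hα
  have hα0 : 0 < α := by positivity
  set κ := Real.pi - (θ (L + L) - θ 0) with hκ
  have hθ0 : θ 0 = 0 := by
    show Real.arctan (∫ s in (0 : ℝ)..0, m s) = 0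
    rw [intervalIntegral.integral_same, Real.arctan_zero]
  have hκ0 : 0 ≤ κ := by
    have a1 := Real.arctan_lt_pi_div_two (y (L + L))
    rw [hκ, hθ0]
    show 0 ≤ Real.pi - (Real.arctan (y (L + L)) - 0)
    linarith
  have hsum : ζ 0 + ζ L = -κ := by
    show θ (0 + L) - θ 0 - L + (θ (L + L) - θ L - L) = -(Real.pi - (θ (L + L) - θ 0))
    rw [zero_add, hL]
    ring
  have hLGV := h2 L Z κ ζ ζ' hL0 hZ0 hZ1 hκ0 hζ'c hζd hle ⟨s0, hs0, rfl⟩ hsum
  rw [← hα] at hLGV
  -- the lower bound
  have hBc : Continuous fun s => Real.sqrt (α ^ 2 - (1 / Real.cos (ζ s)) ^ 2) * |ζ' s| := by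
    refine Continuous.mul (Real.continuous_sqrt.comp (continuous_const.sub (Continuous.pow ?_ 2)))
      hζ'c.abs
    exact continuous_const.div (Real.continuous_cos.comp hζc) fun s => (hcosζ s).ne'
  have hpt : ∀ s ∈ Icc 0 L, 1 - α / 2 * (p s + p (s + L)) +
      1 / 2 * (Real.sqrt (α ^ 2 - (1 / Real.cos (ζ s)) ^ 2) * |ζ' s|) ≤
      Real.log ((∫ x in s..(s + L), m x) / Real.sqrt (m s * m (s + L))) := by
    intro s hs
    have e1 : ∫ x in s..(s + L), m x = y (s + L) - y s := LGC_sub hm s (s + L)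
    have e2 : 1 / Real.cos (ζ s) ≤ α := by
      refine one_div_le_one_div_of_le hcosZ ?_
      rw [← Real.cos_abs (ζ s)]
      exact Real.cos_le_cos_of_nonneg_of_le_pi (abs_nonneg _) (by linarith) (hle s hs)
    have e3 := h1 (p s) (p (s + L)) (ζ s) α (hppos _) (hppos _) (hζlt s) e2
    rw [e1, LGC_log (hymono s (s + L) (by linarith)) (hpos _) (hpos _)]
    show 1 - α / 2 * (p s + p (s + L)) +
      1 / 2 * (Real.sqrt (α ^ 2 - (1 / Real.cos (ζ s)) ^ 2) * |p (s + L) - p s|) ≤
      Real.log (Real.cos (ζ s)) - (1 / 2) * Real.log (p s * p (s + L))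
    linarith
  have hint1 : ∫ s in (0 : ℝ)..L, (p s + p (s + L)) = θ (L + L) - θ 0 := by
    rw [intervalIntegral.integral_eq_sub_of_hasDerivAt (f := fun s => θ s + θ (s + L))
      (fun s _ => (hθd s).add (hθd' s)) ((hpc.add hpc').intervalIntegrable _ _)]
    show θ L + θ (L + L) - (θ 0 + θ (0 + L)) = θ (L + L) - θ 0
    rw [zero_add]
    ring
  have hint2 : ∫ s in (0 : ℝ)..L, (1 - α / 2 * (p s + p (s + L)) +
      1 / 2 * (Real.sqrt (α ^ 2 - (1 / Real.cos (ζ s)) ^ 2) * |ζ' s|)) =
      L - α / 2 * (θ (L + L) - θ 0) +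
        1 / 2 * ∫ s in (0 : ℝ)..L, Real.sqrt (α ^ 2 - (1 / Real.cos (ζ s)) ^ 2) * |ζ' s| := by
    have c1 : IntervalIntegrable (fun s => α / 2 * (p s + p (s + L))) volume 0 L :=
      (continuous_const.mul (hpc.add hpc')).intervalIntegrable _ _
    have c2 : IntervalIntegrable (fun s => 1 / 2 *
        (Real.sqrt (α ^ 2 - (1 / Real.cos (ζ s)) ^ 2) * |ζ' s|)) volume 0 L :=
      (continuous_const.mul hBc).intervalIntegrable _ _
    have c0 : IntervalIntegrable (fun _ : ℝ => (1 : ℝ)) volume 0 L :=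
      continuous_const.intervalIntegrable _ _
    rw [intervalIntegral.integral_add (c0.sub c1) c2, intervalIntegral.integral_sub c0 c1,
      intervalIntegral.integral_const_mul, intervalIntegral.integral_const_mul, hint1,
      intervalIntegral.integral_const, smul_eq_mul]
    ring
  have hmono : ∫ s in (0 : ℝ)..L, (1 - α / 2 * (p s + p (s + L)) +
      1 / 2 * (Real.sqrt (α ^ 2 - (1 / Real.cos (ζ s)) ^ 2) * |ζ' s|)) ≤
      ∫ s in (0 : ℝ)..L, Real.log ((∫ x in s..(s + L), m x) / Real.sqrt (m s * m (s + L))) := by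
    refine intervalIntegral.integral_mono_on hL0.le ?_
      ((LGC_cont hm hpos hL0).intervalIntegrable _ _) hpt
    exact (((continuous_const.sub (continuous_const.mul (hpc.add hpc'))).add
      (continuous_const.mul hBc))).intervalIntegrable _ _
  rw [hint2] at hmono
  have hfin : Real.pi * (α - 1) - α * κ = α * (θ (L + L) - θ 0) - Real.pi := by
    rw [hκ]
    ring
  rw [hfin] at hLGV
  refine le_trans ?_ hmono
  have hLπ : Real.pi = 2 * L := by rw [hL]; ring
  rw [hLπ] at hLGV
  linarith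

/-- **LGC**: the log inequality. -/
theorem LGC (h1 : LGF_stmt) (h2 : LGV_stmt) : LGC_stmt := by
  intro T m hT hm hpos
  have hπ := Real.pi_pos
  set c := T / Real.pi with hc
  have hc0 : 0 < c := div_pos hT hπ
  have hcL : c * (Real.pi / 2) = T / 2 := by
    rw [hc]
    field_simp
  have hmc : Continuous fun s => m (c * s) := hm.comp (continuous_const.mul continuous_id)
  have hcore := LGC_core h1 h2 hmc (fun s => hpos (c * s))
  have hL0 : 0 < Real.pi / 2 := by positivity
  have hpt : ∀ s, Real.log ((∫ x in (c * s)..(c * s + T / 2), m x) /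
      Real.sqrt (m (c * s) * m (c * s + T / 2))) =
      Real.log ((∫ x in s..(s + Real.pi / 2), m (c * x)) /
        Real.sqrt (m (c * s) * m (c * (s + Real.pi / 2)))) + Real.log c := by
    intro s
    have e1 : c * (s + Real.pi / 2) = c * s + T / 2 := by rw [mul_add, hcL]
    have e2 : ∫ x in s..(s + Real.pi / 2), m (c * x) =
        c⁻¹ * ∫ x in (c * s)..(c * s + T / 2), m x := by
      rw [intervalIntegral.integral_comp_mul_left _ hc0.ne', e1, smul_eq_mul]
    have hI : 0 < ∫ x in (c * s)..(c * s + T / 2), m x :=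
      intervalIntegral.intervalIntegral_pos_of_pos (hm.intervalIntegrable _ _) hpos (by linarith)
    have hS : 0 < Real.sqrt (m (c * s) * m (c * s + T / 2)) :=
      Real.sqrt_pos.2 (mul_pos (hpos _) (hpos _))
    rw [e1, e2, mul_div_assoc, Real.log_mul (inv_pos.2 hc0).ne' (div_pos hI hS).ne', Real.log_inv]
    ring
  have hsub : ∫ t in (0 : ℝ)..(T / 2),
      Real.log ((∫ s in t..(t + T / 2), m s) / Real.sqrt (m t * m (t + T / 2))) =
      c * ∫ s in (0 : ℝ)..(Real.pi / 2), Real.log ((∫ x in (c * s)..(c * s + T / 2), m x) /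
        Real.sqrt (m (c * s) * m (c * s + T / 2))) := by
    have e := intervalIntegral.integral_comp_mul_left (a := 0) (b := Real.pi / 2)
      (fun t => Real.log ((∫ s in t..(t + T / 2), m s) / Real.sqrt (m t * m (t + T / 2)))) hc0.ne'
    rw [mul_zero, hcL, smul_eq_mul] at e
    rw [e, ← mul_assoc, mul_inv_cancel₀ hc0.ne', one_mul]
  rw [hsub]
  have hint : ∫ s in (0 : ℝ)..(Real.pi / 2), Real.log ((∫ x in (c * s)..(c * s + T / 2), m x) /
        Real.sqrt (m (c * s) * m (c * s + T / 2))) =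
      (∫ s in (0 : ℝ)..(Real.pi / 2), Real.log ((∫ x in s..(s + Real.pi / 2), m (c * x)) /
        Real.sqrt (m (c * s) * m (c * (s + Real.pi / 2))))) + Real.pi / 2 * Real.log c := by
    rw [intervalIntegral.integral_congr fun s _ => hpt s,
      intervalIntegral.integral_add ((LGC_cont hmc (fun s => hpos (c * s)) hL0).intervalIntegrable _ _)
        (continuous_const.intervalIntegrable _ _), intervalIntegral.integral_const, smul_eq_mul,
      sub_zero]
  rw [hint, mul_add, ← mul_assoc, hcL]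
  have := mul_nonneg hc0.le hcore
  linarith

end Pool.Agent.CRO
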