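import Pool.Agent.helper58.CRO.SpecA

/-!
# The pointwise inequality (row cro:LGF)
-/

open scoped Manifold ContDiff Topology ENNReal
open MeasureTheory Set

noncomputable section

namespace Pool.Agent.CRO

theorem LGF_aux {p q c α B : ℝ} (hp : 0 < p) (hq : 0 < q) (hc : 0 < c) (hα : 0 < α) (hB0 : 0 ≤ B)
    (hB : B ^ 2 = α ^ 2 - (1 / c) ^ 2) :
    (1 / 2) * Real.log (p * q) ≤ (α / 2) * (p + q) - (1 / 2) * B * (q - p) - 1 + Real.log c := by
  have h1 : (α + B) * (α - B) = (1 / c) ^ 2 := by nlinarith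
  have h2 : 0 < α + B := by linarith
  have h3 : 0 < (1 / c) ^ 2 := by positivity
  have h4 : 0 < α - B := by
    rw [← h1] at h3
    exact (pos_iff_pos_of_mul_pos h3).1 h2
  have h5 := Real.log_le_sub_one_of_pos (mul_pos h2 hp)
  have h6 := Real.log_le_sub_one_of_pos (mul_pos h4 hq)
  rw [Real.log_mul h2.ne' hp.ne'] at h5
  rw [Real.log_mul h4.ne' hq.ne'] at h6
  have h7 : Real.log (α + B) + Real.log (α - B) = -2 * Real.log c := by
    rw [← Real.log_mul h2.ne' h4.ne', h1, Real.log_pow, one_div, Real.log_inv]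
    push_cast
    ring
  rw [Real.log_mul hp.ne' hq.ne']
  nlinarith

/-- **LGF**: the pointwise inequality. -/
theorem LGF : LGF_stmt := by
  intro p q ζ α hp hq hζ hα
  have hc : 0 < Real.cos ζ := Real.cos_pos_of_mem_Ioo (abs_lt.1 hζ)
  have h1 : 0 < 1 / Real.cos ζ := by positivity
  have hα0 : 0 < α := lt_of_lt_of_le h1 hα
  set B := Real.sqrt (α ^ 2 - (1 / Real.cos ζ) ^ 2) with hB
  have hB2 : B ^ 2 = α ^ 2 - (1 / Real.cos ζ) ^ 2 := by
    rw [hB, Real.sq_sqrt]
    have := pow_le_pow_left₀ h1.le hα 2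
    linarith
  have hB0 : 0 ≤ B := Real.sqrt_nonneg _
  rcases le_total p q with h | h
  · have h2 := LGF_aux hp hq hc hα0 hB0 hB2
    rw [abs_of_nonneg (by linarith)]
    exact h2
  · have h2 := LGF_aux hq hp hc hα0 hB0 hB2
    rw [abs_of_nonpos (by linarith), mul_comm p q, add_comm p q]
    linarith

end Pool.Agent.CRO
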