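import Pool.Agent.helper58.CRO.SpecA

/-!
# The integral of sqrt (sec^2 Z - sec^2 z) (row cro:LGG)
-/

open scoped Manifold ContDiff Topology ENNReal
open MeasureTheory Set

noncomputable section

namespace Pool.Agent.CRO

/-- **LGG**: the integral. -/
theorem LGG : LGG_stmt := by
  intro Z hZ0 hZ1
  have hπ := Real.pi_pos
  have hc : 0 < Real.cos Z := Real.cos_pos_of_mem_Ioo ⟨by linarith, hZ1⟩
  have hs : 0 < Real.sin Z := Real.sin_pos_of_pos_of_lt_pi hZ0 (by linarith)
  have ht : 0 < Real.tan Z := Real.tan_pos_of_pos_of_lt_pi_div_two hZ0 hZ1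
  set α := 1 / Real.cos Z with hα
  have hcos : ∀ z ∈ Icc 0 Z, 0 < Real.cos z := fun z hz =>
    Real.cos_pos_of_mem_Ioo ⟨by linarith [hz.1], by linarith [hz.2]⟩
  let G : ℝ → ℝ := fun z => α * Real.arcsin (Real.sin z / Real.sin Z) -
    Real.arcsin (Real.tan z / Real.tan Z)
  have hcont : ContinuousOn G (Icc 0 Z) := by
    refine ContinuousOn.sub ?_ ?_
    · refine ContinuousOn.mul continuousOn_const ?_
      exact (Real.continuous_arcsin.comp (Real.continuous_sin.div_const _)).continuousOn
    · refine Real.continuous_arcsin.comp_continuousOn ?_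
      refine ContinuousOn.div_const ?_ _
      intro z hz
      exact (Real.continuousAt_tan.2 (hcos z hz).ne').continuousWithinAt
  have hderiv : ∀ z ∈ Ioo 0 Z, HasDerivAt G (Real.sqrt (α ^ 2 - (1 / Real.cos z) ^ 2)) z := by
    intro z hz
    have hcz := hcos z ⟨hz.1.le, hz.2.le⟩
    have hsz : 0 < Real.sin z := Real.sin_pos_of_pos_of_lt_pi hz.1 (by linarith [hz.2])
    have hss : Real.sin z < Real.sin Z :=
      Real.sin_lt_sin_of_lt_of_le_pi_div_two (by linarith [hz.1]) hZ1.le hz.2
    have hD2 : 0 < Real.sin Z ^ 2 - Real.sin z ^ 2 := by nlinarith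
    set D := Real.sqrt (Real.sin Z ^ 2 - Real.sin z ^ 2) with hD
    have hD0 : 0 < D := Real.sqrt_pos.2 hD2
    have hDD : D ^ 2 = Real.sin Z ^ 2 - Real.sin z ^ 2 := Real.sq_sqrt hD2.le
    have hid1 := Real.sin_sq_add_cos_sq z
    have hid2 := Real.sin_sq_add_cos_sq Z
    have hDc : D ^ 2 = Real.cos z ^ 2 - Real.cos Z ^ 2 := by linarith
    -- the square root
    have hB : Real.sqrt (α ^ 2 - (1 / Real.cos z) ^ 2) = D / (Real.cos Z * Real.cos z) := by
      have e : α ^ 2 - (1 / Real.cos z) ^ 2 = (D / (Real.cos Z * Real.cos z)) ^ 2 := by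
        rw [hα, div_pow D, hDc]
        field_simp
      rw [e, Real.sqrt_sq (by positivity)]
    -- first arcsin
    have h1 : Real.sin z / Real.sin Z < 1 := (div_lt_one hs).2 hss
    have h1' : 0 < Real.sin z / Real.sin Z := by positivity
    have e1 : Real.sqrt (1 - (Real.sin z / Real.sin Z) ^ 2) = D / Real.sin Z := by
      have e : 1 - (Real.sin z / Real.sin Z) ^ 2 = (D / Real.sin Z) ^ 2 := by
        rw [div_pow D, hDD]
        field_simp
      rw [e, Real.sqrt_sq (by positivity)]
    have d1 : HasDerivAt (fun z => Real.arcsin (Real.sin z / Real.sin Z)) (Real.cos z / D) z := by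
      have h2 := (Real.hasDerivAt_arcsin (x := Real.sin z / Real.sin Z) (by linarith)
        (by linarith)).comp z ((Real.hasDerivAt_sin z).div_const (Real.sin Z))
      rw [e1] at h2
      have e : 1 / (D / Real.sin Z) * (Real.cos z / Real.sin Z) = Real.cos z / D := by
        field_simp
      rw [e] at h2
      exact h2
    -- second arcsin
    have htz : Real.tan z = Real.sin z / Real.cos z := Real.tan_eq_sin_div_cos z
    have htZ : Real.tan Z = Real.sin Z / Real.cos Z := Real.tan_eq_sin_div_cos Z
    have htz0 : 0 < Real.tan z := by rw [htz]; positivity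
    have e2 : 1 - (Real.tan z / Real.tan Z) ^ 2 = (D / (Real.sin Z * Real.cos z)) ^ 2 := by
      rw [div_pow D, hDc, htz, htZ]
      field_simp
      nlinarith
    have h3 : Real.tan z / Real.tan Z < 1 := by
      have h4 : 0 < (D / (Real.sin Z * Real.cos z)) ^ 2 := by positivity
      rw [← e2] at h4
      by_contra h5
      push Not at h5
      nlinarith
    have h3' : 0 < Real.tan z / Real.tan Z := by positivity
    have d2 : HasDerivAt (fun z => Real.arcsin (Real.tan z / Real.tan Z))
        (Real.cos Z / (Real.cos z * D)) z := by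
      have h2 := (Real.hasDerivAt_arcsin (x := Real.tan z / Real.tan Z) (by linarith)
        (by linarith)).comp z ((Real.hasDerivAt_tan hcz.ne').div_const (Real.tan Z))
      rw [e2, Real.sqrt_sq (by positivity)] at h2
      have e : 1 / (D / (Real.sin Z * Real.cos z)) * (1 / Real.cos z ^ 2 / Real.tan Z) =
          Real.cos Z / (Real.cos z * D) := by
        rw [htZ]
        field_simp
      rw [e] at h2
      exact h2
    have d3 := (d1.const_mul α).sub d2
    have e3 : α * (Real.cos z / D) - Real.cos Z / (Real.cos z * D) =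
        Real.sqrt (α ^ 2 - (1 / Real.cos z) ^ 2) := by
      rw [hB, hα]
      field_simp
      linarith
    rw [e3] at d3
    exact d3
  have hint : IntervalIntegrable (fun z => Real.sqrt (α ^ 2 - (1 / Real.cos z) ^ 2)) volume 0 Z := by
    refine ContinuousOn.intervalIntegrable ?_
    rw [uIcc_of_le hZ0.le]
    refine Real.continuous_sqrt.comp_continuousOn ?_
    refine ContinuousOn.sub continuousOn_const (ContinuousOn.pow ?_ 2)
    exact ContinuousOn.div continuousOn_const Real.continuous_cos.continuousOn
      fun z hz => (hcos z hz).ne'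
  rw [intervalIntegral.integral_eq_sub_of_hasDerivAt_of_le hZ0.le hcont hderiv hint]
  show α * Real.arcsin (Real.sin Z / Real.sin Z) - Real.arcsin (Real.tan Z / Real.tan Z) -
    (α * Real.arcsin (Real.sin 0 / Real.sin Z) - Real.arcsin (Real.tan 0 / Real.tan Z)) = _
  rw [div_self hs.ne', div_self ht.ne', Real.sin_zero, Real.tan_zero, zero_div, zero_div,
    Real.arcsin_zero, Real.arcsin_one]
  ring

end Pool.Agent.CRO
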