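import Pool.Agent.helper58.CRO.SpecA

/-!
# The variation bound (row cro:LGV)
-/

open scoped Manifold ContDiff Topology ENNReal
open MeasureTheory Set

noncomputable section

namespace Pool.Agent.CRO

/-- the density, extended continuously to the line -/
def LGV_f (Z z : ℝ) : ℝ := Real.sqrt ((1 / Real.cos Z) ^ 2 - (1 / Real.cos (min |z| Z)) ^ 2)

theorem LGV_cos {Z : ℝ} (hZ0 : 0 ≤ Z) (hZ1 : Z < Real.pi / 2) (z : ℝ) :
    0 < Real.cos (min |z| Z) := by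
  have hπ := Real.pi_pos
  have h1 : 0 ≤ min |z| Z := le_min (abs_nonneg z) hZ0
  have h2 : min |z| Z ≤ Z := min_le_right _ _
  exact Real.cos_pos_of_mem_Ioo ⟨by linarith, by linarith⟩

theorem LGV_f_cont {Z : ℝ} (hZ0 : 0 ≤ Z) (hZ1 : Z < Real.pi / 2) : Continuous (LGV_f Z) := by
  unfold LGV_f
  refine Real.continuous_sqrt.comp (continuous_const.sub (Continuous.pow ?_ 2))
  exact continuous_const.div (Real.continuous_cos.comp (continuous_abs.min continuous_const))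
    fun z => (LGV_cos hZ0 hZ1 z).ne'

theorem LGV_f_nonneg (Z z : ℝ) : 0 ≤ LGV_f Z z := Real.sqrt_nonneg _

theorem LGV_f_le {Z : ℝ} (hZ0 : 0 ≤ Z) (hZ1 : Z < Real.pi / 2) (z : ℝ) :
    LGV_f Z z ≤ 1 / Real.cos Z := by
  have hc : 0 < Real.cos Z := Real.cos_pos_of_mem_Ioo ⟨by linarith [Real.pi_pos], hZ1⟩
  unfold LGV_f
  refine (Real.sqrt_le_sqrt (sub_le_self _ (sq_nonneg _))).trans ?_
  rw [Real.sqrt_sq (by positivity)]

theorem LGV_f_even (Z z : ℝ) : LGV_f Z (-z) = LGV_f Z z := by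
  unfold LGV_f
  rw [abs_neg]

theorem LGV_f_eq {Z z : ℝ} (h : |z| ≤ Z) :
    LGV_f Z z = Real.sqrt ((1 / Real.cos Z) ^ 2 - (1 / Real.cos z) ^ 2) := by
  unfold LGV_f
  rw [min_eq_left h, Real.cos_abs]

/-- the primitive -/
def LGV_G (Z z : ℝ) : ℝ := ∫ x in (0 : ℝ)..z, LGV_f Z x

theorem LGV_G_deriv {Z : ℝ} (hZ0 : 0 ≤ Z) (hZ1 : Z < Real.pi / 2) (z : ℝ) :
    HasDerivAt (LGV_G Z) (LGV_f Z z) z :=
  intervalIntegral.integral_hasDerivAt_right ((LGV_f_cont hZ0 hZ1).intervalIntegrable _ _)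
    ((LGV_f_cont hZ0 hZ1).stronglyMeasurableAtFilter _ _) (LGV_f_cont hZ0 hZ1).continuousAt

theorem LGV_G_odd (Z z : ℝ) : LGV_G Z (-z) = -LGV_G Z z := by
  unfold LGV_G
  have h1 : ∫ x in (0 : ℝ)..z, LGV_f Z x = ∫ x in (0 : ℝ)..z, LGV_f Z (-x) :=
    intervalIntegral.integral_congr fun x _ => (LGV_f_even Z x).symm
  rw [h1, intervalIntegral.integral_comp_neg, neg_zero, intervalIntegral.integral_symm (-z) 0]

theorem LGV_G_sub {Z : ℝ} (hZ0 : 0 ≤ Z) (hZ1 : Z < Real.pi / 2) (x y : ℝ) :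
    LGV_G Z y - LGV_G Z x = ∫ z in x..y, LGV_f Z z := by
  unfold LGV_G
  exact intervalIntegral.integral_interval_sub_left
    ((LGV_f_cont hZ0 hZ1).intervalIntegrable _ _) ((LGV_f_cont hZ0 hZ1).intervalIntegrable _ _)

theorem LGV_G_mono {Z : ℝ} (hZ0 : 0 ≤ Z) (hZ1 : Z < Real.pi / 2) {x y : ℝ} (h : x ≤ y) :
    LGV_G Z x ≤ LGV_G Z y := by
  have h1 := LGV_G_sub hZ0 hZ1 x y
  have h2 : 0 ≤ ∫ z in x..y, LGV_f Z z :=
    intervalIntegral.integral_nonneg h fun z _ => LGV_f_nonneg Z z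
  linarith

theorem LGV_G_lip {Z : ℝ} (hZ0 : 0 ≤ Z) (hZ1 : Z < Real.pi / 2) {x y : ℝ} (h : x ≤ y) :
    LGV_G Z y ≤ LGV_G Z x + 1 / Real.cos Z * (y - x) := by
  have h1 := LGV_G_sub hZ0 hZ1 x y
  have h2 : ∫ z in x..y, LGV_f Z z ≤ ∫ _z in x..y, 1 / Real.cos Z :=
    intervalIntegral.integral_mono_on h ((LGV_f_cont hZ0 hZ1).intervalIntegrable _ _)
      (continuous_const.intervalIntegrable _ _) fun z _ => LGV_f_le hZ0 hZ1 z
  rw [intervalIntegral.integral_const, smul_eq_mul] at h2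
  linarith

theorem LGV_G_Z (hLGG : LGG_stmt) {Z : ℝ} (hZ0 : 0 ≤ Z) (hZ1 : Z < Real.pi / 2) :
    LGV_G Z Z = Real.pi / 2 * (1 / Real.cos Z - 1) := by
  rcases hZ0.eq_or_lt with h | h
  · subst h
    unfold LGV_G
    rw [intervalIntegral.integral_same, Real.cos_zero]
    norm_num
  · rw [← hLGG Z h hZ1]
    unfold LGV_G
    refine intervalIntegral.integral_congr fun z hz => ?_
    rw [uIcc_of_le hZ0] at hz
    exact LGV_f_eq (by rw [abs_of_nonneg hz.1]; exact hz.2)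

/-- **LGV**: the variation bound. -/
theorem LGV (h1 : LGG_stmt) : LGV_stmt := by
  intro L Z κ ζ ζ' hL hZ0 hZ1 hκ hcont hder hle hex hsum
  have hζ : Continuous ζ := continuous_iff_continuousAt.2 fun s => (hder s).continuousAt
  have hFc : Continuous fun s => LGV_f Z (ζ s) * |ζ' s| :=
    ((LGV_f_cont hZ0 hZ1).comp hζ).mul hcont.abs
  have hFc' : Continuous fun s => LGV_f Z (ζ s) * ζ' s :=
    ((LGV_f_cont hZ0 hZ1).comp hζ).mul hcont
  have heq : ∫ s in (0 : ℝ)..L, Real.sqrt ((1 / Real.cos Z) ^ 2 - (1 / Real.cos (ζ s)) ^ 2) * |ζ' s| =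
      ∫ s in (0 : ℝ)..L, LGV_f Z (ζ s) * |ζ' s| := by
    refine intervalIntegral.integral_congr fun s hs => ?_
    rw [uIcc_of_le hL.le] at hs
    simp only [LGV_f_eq (hle s hs)]
  rw [heq]
  have hvar : ∀ x y : ℝ, x ≤ y → |LGV_G Z (ζ y) - LGV_G Z (ζ x)| ≤
      ∫ s in x..y, LGV_f Z (ζ s) * |ζ' s| := by
    intro x y hxy
    have e1 : ∫ s in x..y, LGV_f Z (ζ s) * ζ' s = LGV_G Z (ζ y) - LGV_G Z (ζ x) := by
      refine intervalIntegral.integral_eq_sub_of_hasDerivAt (f := fun s => LGV_G Z (ζ s)) ?_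
        (hFc'.intervalIntegrable _ _)
      intro s _
      exact (LGV_G_deriv hZ0 hZ1 (ζ s)).comp s (hder s)
    rw [← e1]
    refine (intervalIntegral.abs_integral_le_integral_abs hxy).trans (le_of_eq ?_)
    refine intervalIntegral.integral_congr fun s _ => ?_
    show |LGV_f Z (ζ s) * ζ' s| = LGV_f Z (ζ s) * |ζ' s|
    rw [abs_mul, abs_of_nonneg (LGV_f_nonneg Z (ζ s))]
  obtain ⟨s0, hs0, hs0Z⟩ := hex
  have hsplit : ∫ s in (0 : ℝ)..L, LGV_f Z (ζ s) * |ζ' s| =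
      (∫ s in (0 : ℝ)..s0, LGV_f Z (ζ s) * |ζ' s|) + ∫ s in s0..L, LGV_f Z (ζ s) * |ζ' s| :=
    (intervalIntegral.integral_add_adjacent_intervals (hFc.intervalIntegrable _ _)
      (hFc.intervalIntegrable _ _)).symm
  have hv1 := hvar 0 s0 hs0.1
  have hv2 := hvar s0 L hs0.2
  have hGZ := LGV_G_Z h1 hZ0 hZ1
  have hα : 0 < 1 / Real.cos Z := by
    have : 0 < Real.cos Z := Real.cos_pos_of_mem_Ioo ⟨by linarith [Real.pi_pos], hZ1⟩
    positivity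
  have hακ : 0 ≤ 1 / Real.cos Z * κ := mul_nonneg hα.le hκ
  rcases abs_eq hZ0 |>.1 hs0Z with h | h
  · rw [h] at hv1 hv2
    have a1 := (abs_le.1 hv1).2
    have a2 := (abs_le.1 hv2).1
    have a3 : LGV_G Z (ζ L) ≤ -LGV_G Z (ζ 0) := by
      rw [← LGV_G_odd]
      exact LGV_G_mono hZ0 hZ1 (by linarith)
    have b1 := le_abs_self (LGV_G Z Z - LGV_G Z (ζ 0))
    have b2 := neg_abs_le (LGV_G Z (ζ L) - LGV_G Z Z)
    rw [hsplit]
    linarith
  · rw [h] at hv1 hv2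
    have b1 := neg_abs_le (LGV_G Z (-Z) - LGV_G Z (ζ 0))
    have b2 := le_abs_self (LGV_G Z (ζ L) - LGV_G Z (-Z))
    have a3 : -LGV_G Z (ζ 0) - 1 / Real.cos Z * κ ≤ LGV_G Z (ζ L) := by
      have e1 : ζ L = -(ζ 0 + κ) := by linarith
      have e2 := LGV_G_lip hZ0 hZ1 (show ζ 0 ≤ ζ 0 + κ by linarith)
      rw [e1, LGV_G_odd]
      have e3 : ζ 0 + κ - ζ 0 = κ := by ring
      rw [e3] at e2
      linarith
    rw [LGV_G_odd] at hv1 hv2 b1 b2
    rw [hsplit]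
    linarith

end Pool.Agent.CRO
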