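import Pool.Agent.helper58.CRO.SpecE

/-!
# The limit (row cro:LIM)
-/

open scoped Manifold ContDiff Topology ENNReal
open MeasureTheory Set Bundle Filter

noncomputable section

namespace Pool.Agent.CRO

/-- **LIM**: the limit. -/
theorem LIM (h1 : LRT_stmt) (h2 : STI_stmt) (h3 : RAT_stmt) : LIM_stmt := by
  unfold LIM_stmt
  have hπ := Real.pi_pos
  have h4 := (h1.mul h2).div_const Real.pi
  have h5 : 1 * Real.sqrt (2 * Real.pi * Real.exp 1) / Real.pi =
      Real.sqrt (2 * Real.exp 1 / Real.pi) := by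
    have e1 : 2 * Real.exp 1 / Real.pi = 2 * Real.pi * Real.exp 1 / Real.pi ^ 2 := by
      field_simp
    rw [e1, Real.sqrt_div (by positivity), Real.sqrt_sq hπ.le, one_mul]
  rw [h5] at h4
  refine h4.congr' ?_
  filter_upwards [eventually_ge_atTop 1] with n hn
  have hn0 : (n : ℝ) ≠ 0 := by
    have : n ≠ 0 := by omega
    exact_mod_cast this
  have hs : 0 < sphereVol n := (h3 n).2.1
  have hc : 0 ≤ (cstar n).toReal := ENNReal.toReal_nonneg
  have e2 : (Real.pi ^ n) ^ ((1 : ℝ) / n) = Real.pi := by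
    rw [← Real.rpow_natCast, ← Real.rpow_mul hπ.le, mul_one_div_cancel hn0, Real.rpow_one]
  have e3 : (sphereVol n / Real.pi ^ n) ^ ((1 : ℝ) / n) =
      (sphereVol n) ^ ((1 : ℝ) / n) / Real.pi := by
    rw [Real.div_rpow hs.le (pow_pos hπ n).le, e2]
  have e4 : 0 < (sphereVol n) ^ ((1 : ℝ) / n) := Real.rpow_pos_of_pos hs _
  rw [Real.div_rpow hc (div_pos hs (pow_pos hπ n)).le, e3]
  field_simp

end Pool.Agent.CRO
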