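import Pool.Agent.helper58.CRO.SpecE

/-!
# The ratio to the round sphere (row cro:LRT)
-/

open scoped Manifold ContDiff Topology ENNReal
open MeasureTheory Set Bundle Filter

noncomputable section

namespace Pool.Agent.CRO

/-- **LRT**: the ratio to the round sphere. -/
theorem LRT (h1 : CST_stmt) (h2 : UPB_stmt) (h3 : RAT_stmt) : LRT_stmt := by
  unfold LRT_stmt
  rw [Metric.tendsto_atTop]
  intro δ hδ
  set ε := min (δ / 2) (1 / 2) with hε
  have hε0 : 0 < ε := lt_min (by positivity) (by norm_num)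
  have hε1 : ε < 1 := lt_of_le_of_lt (min_le_right _ _) (by norm_num)
  have hεδ : ε < δ := lt_of_le_of_lt (min_le_left _ _) (by linarith)
  obtain ⟨n0, hn0⟩ := h1 ε hε0 hε1
  refine ⟨max n0 1, fun n hn => ?_⟩
  have hn1 : 1 ≤ n := (le_max_right _ _).trans hn
  have hn2 : n0 ≤ n := (le_max_left _ _).trans hn
  set κ := sphereVol n / Real.pi ^ n with hκ
  have hκ0 : 0 < κ := div_pos (h3 n).2.1 (pow_pos Real.pi_pos n)
  have hup := h2 n hn1
  have hlo := hn0 n hn2
  have hfin : cstar n ≠ ⊤ := ne_top_of_le_ne_top ENNReal.ofReal_ne_top hup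
  have hup' : (cstar n).toReal ≤ κ := ENNReal.toReal_le_of_le_ofReal hκ0.le hup
  have hlo' : (1 - ε) ^ n * κ ≤ (cstar n).toReal := (ENNReal.ofReal_le_iff_le_toReal hfin).1 hlo
  have hr1 : (cstar n).toReal / κ ≤ 1 := (div_le_one hκ0).2 hup'
  have hr2 : (1 - ε) ^ n ≤ (cstar n).toReal / κ := (le_div_iff₀ hκ0).2 hlo'
  have hε' : 0 < 1 - ε := by linarith
  have hr0 : 0 ≤ (cstar n).toReal / κ := (pow_pos hε' n).le.trans hr2
  have hn0' : (n : ℝ) ≠ 0 := by
    have : n ≠ 0 := by omega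
    exact_mod_cast this
  have h4 : ((cstar n).toReal / κ) ^ ((1 : ℝ) / n) ≤ 1 :=
    Real.rpow_le_one hr0 hr1 (by positivity)
  have h5 : 1 - ε ≤ ((cstar n).toReal / κ) ^ ((1 : ℝ) / n) := by
    have h6 := Real.rpow_le_rpow (pow_pos hε' n).le hr2 (show (0 : ℝ) ≤ 1 / n by positivity)
    rw [← Real.rpow_natCast, ← Real.rpow_mul hε'.le, mul_one_div_cancel hn0', Real.rpow_one] at h6
    exact h6
  rw [Real.dist_eq, abs_lt]
  constructor <;> linarith

end Pool.Agent.CRO
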