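import Pool.Agent.helper58.CRO.SpecC

/-!
# The step function (row cro:STF)
-/

open scoped Manifold ContDiff Topology ENNReal
open MeasureTheory Set

noncomputable section

namespace Pool.Agent.CRO

theorem STF_ind (k : ℕ) (t v : ℕ → ℝ) (N : ℕ) (hN : k + 1 ≤ N) :
    (∀ j, k < j → j ≤ N → 0 < t j ∧ 0 < v j) → (∀ j, k < j → j < N → v (j + 1) ≤ v j) →
    ∃ g : ℝ → ℝ, Antitone g ∧ (∀ r, v N ≤ g r ∧ g r ≤ v (k + 1)) ∧
      (∀ r, 0 ≤ r → r < ∑ i ∈ Finset.Ioc k N, t i →
        ∃ j, k < j ∧ j ≤ N ∧ r < ∑ i ∈ Finset.Ioc k j, t i ∧ g r = v j) ∧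
      ∫ r in (0 : ℝ)..(∑ i ∈ Finset.Ioc k N, t i), g r = ∑ i ∈ Finset.Ioc k N, t i * v i := by
  induction N, hN using Nat.le_induction with
  | base =>
    intro _ _
    refine ⟨fun _ => v (k + 1), antitone_const, fun _ => ⟨le_rfl, le_rfl⟩, fun r _ hr =>
      ⟨k + 1, by omega, le_rfl, hr, rfl⟩, ?_⟩
    rw [intervalIntegral.integral_const, smul_eq_mul, sub_zero]
    have e : Finset.Ioc k (k + 1) = {k + 1} := by
      ext x
      simp only [Finset.mem_Ioc, Finset.mem_singleton]
      omega
    rw [e, Finset.sum_singleton, Finset.sum_singleton]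
  | succ N hN ih =>
    intro h1 h2
    obtain ⟨g, hg1, hg2, hg3, hg4⟩ := ih (fun j hj hjN => h1 j hj (by omega))
      (fun j hj hjN => h2 j hj (by omega))
    set θ := ∑ i ∈ Finset.Ioc k N, t i with hθ
    have hθ0 : 0 ≤ θ := Finset.sum_nonneg fun i hi => by
      rw [Finset.mem_Ioc] at hi
      exact (h1 i hi.1 (by omega)).1.le
    have hsplit : ∀ f : ℕ → ℝ, ∑ i ∈ Finset.Ioc k (N + 1), f i =
        ∑ i ∈ Finset.Ioc k N, f i + f (N + 1) := by
      intro f
      rw [Finset.sum_Ioc_succ_top (by omega)]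
    have hv : v (N + 1) ≤ v N := h2 N (by omega) (by omega)
    have htN : 0 < t (N + 1) := (h1 (N + 1) (by omega) le_rfl).1
    let g' : ℝ → ℝ := fun r => if r < θ then g r else v (N + 1)
    have hg'1 : Antitone g' := by
      intro r s hrs
      show (if s < θ then g s else v (N + 1)) ≤ (if r < θ then g r else v (N + 1))
      by_cases hs : s < θ
      · rw [if_pos hs, if_pos (lt_of_le_of_lt hrs hs)]
        exact hg1 hrs
      · rw [if_neg hs]
        by_cases hr : r < θ
        · rw [if_pos hr]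
          exact hv.trans (hg2 r).1
        · rw [if_neg hr]
    refine ⟨g', hg'1, fun r => ?_, fun r hr0 hr => ?_, ?_⟩
    · show v (N + 1) ≤ (if r < θ then g r else v (N + 1)) ∧
        (if r < θ then g r else v (N + 1)) ≤ v (k + 1)
      by_cases hr : r < θ
      · rw [if_pos hr]
        exact ⟨hv.trans (hg2 r).1, (hg2 r).2⟩
      · rw [if_neg hr]
        exact ⟨le_rfl, hv.trans ((hg2 r).1.trans (hg2 r).2)⟩
    · by_cases hrθ : r < θ
      · obtain ⟨j, hj1, hj2, hj3, hj4⟩ := hg3 r hr0 hrθ
        refine ⟨j, hj1, by omega, hj3, ?_⟩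
        show (if r < θ then g r else v (N + 1)) = v j
        rw [if_pos hrθ, hj4]
      · refine ⟨N + 1, by omega, le_rfl, hr, ?_⟩
        show (if r < θ then g r else v (N + 1)) = v (N + 1)
        rw [if_neg hrθ]
    · rw [hsplit, hsplit, ← hθ, ← intervalIntegral.integral_add_adjacent_intervals (b := θ)
        hg'1.intervalIntegrable hg'1.intervalIntegrable, ← hg4]
      congr 1
      · refine intervalIntegral.integral_congr_ae ?_
        filter_upwards [(countable_singleton θ).ae_notMem (volume : Measure ℝ)] with r hr hr2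
        rw [uIoc_of_le hθ0] at hr2
        have h3 : r < θ := lt_of_le_of_ne hr2.2 fun h => hr (mem_singleton_iff.2 h)
        show (if r < θ then g r else v (N + 1)) = g r
        rw [if_pos h3]
      · have h4 : ∫ r in θ..(θ + t (N + 1)), g' r = ∫ _r in θ..(θ + t (N + 1)), v (N + 1) := by
          refine intervalIntegral.integral_congr fun r hr => ?_
          rw [uIcc_of_le (by linarith)] at hr
          show (if r < θ then g r else v (N + 1)) = v (N + 1)
          rw [if_neg (not_lt.2 hr.1)]
        rw [h4, intervalIntegral.integral_const, smul_eq_mul]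
        ring

/-- **STF**: the step function. -/
theorem STF : STF_stmt := fun N k t v hk => STF_ind k t v N hk

end Pool.Agent.CRO
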