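import Pool.Agent.helper58.CRO.SpecE

/-!
# The upper bound (row cro:UPB)
-/

open scoped Manifold ContDiff Topology ENNReal
open MeasureTheory Set Bundle Filter

noncomputable section

namespace Pool.Agent.CRO

/-- **UPB**: the upper bound. -/
theorem UPB (h1 : SPG_stmt) (h2 : SPI_stmt) (h3 : SPV_stmt) : UPB_stmt := by
  intro n hn
  obtain ⟨g, hg⟩ := h1 n
  have hπ := Real.pi_pos
  have hconn : IsConnected (Metric.sphere (0 : En (n + 1)) 1) := by
    refine isConnected_sphere ?_ 0 zero_le_one
    rw [← Module.finrank_eq_rank, finrank_euclideanSpace, Fintype.card_fin]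
    exact_mod_cast (by omega : 1 < n + 1)
  haveI hcs : ConnectedSpace (Sn n) := isConnected_iff_connectedSpace.1 hconn
  obtain ⟨m⟩ : Nonempty (Sn n) := hcs.toNonempty
  have hinj : ENNReal.ofReal Real.pi ≤ injRad g := by
    unfold injRad
    exact le_iSup₂_of_le Real.pi ⟨hπ, h2 n g hg⟩ le_rfl
  have hle : cstar n ≤ gvol g (gball g m Real.pi) / ENNReal.ofReal (Real.pi ^ n) := by
    unfold cstar
    exact sInf_le ⟨Sn n, inferInstance, inferInstance, inferInstance, hcs, inferInstance,
      inferInstance, g, m, Real.pi, hπ, hinj, rfl⟩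
  refine hle.trans ?_
  rw [ENNReal.ofReal_div_of_pos (pow_pos hπ n)]
  exact ENNReal.div_le_div_right (h3 n g hg _) _

end Pool.Agent.CRO
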